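import Pool.Agent.Lib.MP_776403_ag.SD.E2.Spec

/-!
# Case `deg X = c + 2`, `n = c + 3`, module HF: the number of quadrics (helper28)
-/

set_option autoImplicit false

open MvPolynomial

noncomputable section

namespace Pool.Agent.Lib.MP_776403_ag.SD.E2

variable {N : ℕ}

namespace HFAux

theorem finrank_forms (n d : ℕ) :
    Module.finrank ℂ (homogeneousSubmodule (Fin (n + 1)) ℂ d) = (d + n).choose n := by
  classical
  have h1 : homogeneousSubmodule (Fin (n + 1)) ℂ d = Submodule.span ℂ (Set.range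
      fun s : {s // s ∈ (Finset.univ : Finset (Fin (n + 1))).finsuppAntidiag d} =>
        (monomial s.1 1 : MvPolynomial (Fin (n + 1)) ℂ)) := by
    rw [homogeneousSubmodule_eq_finsupp_supported, AddMonoidAlgebra.supported_eq_span_single]
    congr 1
    ext f
    constructor
    · rintro ⟨s, hs, rfl⟩
      refine ⟨⟨s, ?_⟩, rfl⟩
      rw [Finset.mem_finsuppAntidiag]
      refine ⟨?_, Finset.subset_univ _⟩
      rw [← Finsupp.degree_eq_sum]
      exact hs
    · rintro ⟨⟨s, hs⟩, rfl⟩
      refine ⟨s, ?_, rfl⟩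
      rw [Finset.mem_finsuppAntidiag, ← Finsupp.degree_eq_sum] at hs
      exact hs.1
  have h2 : LinearIndependent ℂ
      fun s : {s // s ∈ (Finset.univ : Finset (Fin (n + 1))).finsuppAntidiag d} =>
        (monomial s.1 1 : MvPolynomial (Fin (n + 1)) ℂ) := by
    have h3 := (basisMonomials (Fin (n + 1)) ℂ).linearIndependent.comp
      (fun s : {s // s ∈ (Finset.univ : Finset (Fin (n + 1))).finsuppAntidiag d} => s.1)
      Subtype.val_injective
    refine (linearIndependent_equiv' (Equiv.refl _) ?_).1 h3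
    funext s
    change (monomial s.1 1 : MvPolynomial (Fin (n + 1)) ℂ) = basisMonomials (Fin (n + 1)) ℂ s.1
    rw [coe_basisMonomials]
  rw [h1, finrank_span_eq_card h2, Fintype.card_coe, Finset.card_finsuppAntidiag_nat_eq_choose,
    Finset.card_univ, Fintype.card_fin]
  have h4 : n + 1 + d - 1 = d + n := by omega
  rw [h4]
  exact Nat.choose_symm_add

theorem choose_aux (n c : ℕ) : (n + c + 2).choose 2 + 1 = (c + 1).choose 2 +
    ((n + 2).choose 2 + c * (n + 1) + 1) := by
  induction c with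
  | zero => simp
  | succ c ih =>
    rw [show n + (c + 1) + 2 = (n + c + 2) + 1 by ring, Nat.choose_succ_succ' (n + c + 2) 1,
      Nat.choose_succ_succ' (c + 1) 1, Nat.choose_one_right, Nat.choose_one_right]
    linarith

end HFAux

open HFAux

/-- `dim (S / I)_2 + dim I_2 = binom (N + 2) 2`. -/
theorem finrank_gr2 (I : Ideal (Sx N)) :
    Module.finrank ℂ (gr I 2) + Module.finrank ℂ (I2 I) = (N + 2).choose 2 := by
  have hfin : FiniteDimensional ℂ (homogeneousSubmodule (Fin (N + 1)) ℂ 2) :=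
    Module.Finite.iff_fg.2 (homogeneousSubmodule_fg (Fin (N + 1)) ℂ 2)
  set W := homogeneousSubmodule (Fin (N + 1)) ℂ 2 with hW
  set f : W →ₗ[ℂ] Sx N ⧸ I := (Ideal.Quotient.mkₐ ℂ I).toLinearMap.domRestrict W with hf
  have h1 := LinearMap.finrank_range_add_finrank_ker f
  have h2 : LinearMap.range f = gr I 2 := by
    rw [hf, LinearMap.range_domRestrict]
    rfl
  have h3 : (LinearMap.ker f).map W.subtype = I2 I := by
    ext G
    constructor
    · rintro ⟨g, hg, rfl⟩
      exact ⟨Ideal.Quotient.eq_zero_iff_mem.1 hg, g.2⟩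
    · rintro ⟨hG, hG2⟩
      exact ⟨⟨G, hG2⟩, Ideal.Quotient.eq_zero_iff_mem.2 hG, rfl⟩
  have h4 := Submodule.finrank_map_subtype_eq W (LinearMap.ker f)
  rw [h3] at h4
  rw [h2, ← h4, finrank_forms, add_comm 2 N, Nat.choose_symm_add] at h1
  exact h1

/-- The number of quadrics. -/
theorem i2_ge (n c : ℕ) (I : Ideal (Sx N)) (hN : N = n + c)
    (h : Module.finrank ℂ (gr I 2) ≤ (n + 2).choose 2 + c * (n + 1) + 1) :
    Nat.choose (c + 1) 2 ≤ Module.finrank ℂ (I2 I) + 1 := by
  have h1 := finrank_gr2 I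
  have h2 := choose_aux n c
  subst hN
  omega

end Pool.Agent.Lib.MP_776403_ag.SD.E2
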