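import Pool.Agent.Lib.MP_776403_ag.SD.E2.Spec
import Pool.Agent.Lib.MP_776403_ag.SD.LI.TS
import Pool.Agent.Lib.MP_776403_ag.SD.LI.Ext

/-!
# Case `deg X = c + 2`, `n = c + 3`, module C4: `c ≥ 4` is impossible (helper28)
-/

set_option autoImplicit false

open MvPolynomial

noncomputable section

namespace Pool.Agent.Lib.MP_776403_ag.SD.E2

open LI LI.TSAux

variable {N : ℕ}

namespace C4Aux

theorem sum_c (m : ℕ) : ∑ j ∈ Finset.range m, (m + 2 - j) + 3 = Nat.choose (m + 2 + 1) 2 := by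
  have h1 : ∑ j ∈ Finset.range m, (m + 2 - j) = ∑ j ∈ Finset.range m, (j + 3) := by
    rw [← Finset.sum_range_reflect]
    refine Finset.sum_congr rfl fun j hj => ?_
    have := Finset.mem_range.1 hj
    omega
  rw [h1]
  clear h1
  induction m with
  | zero => rfl
  | succ m ih =>
    rw [Finset.sum_range_succ, Nat.choose_succ_succ' (m + 1 + 2) 1, Nat.choose_one_right, show m + 1 + 2 = m + 2 + 1 by ring,
      ← ih]
    ring

/-- The space `T_j`. -/
def TT (I : Ideal (Sx N)) {k : ℕ} (x : Fin k → Vx N) (j : Fin k) : Submodule ℂ (Vx N) :=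
  TS I (x j) ⊔ Submodule.span ℂ (Set.range x)

theorem hs_x (hH : S_Hsf) {I : Ideal (Sx N)} {k : ℕ} {x : Fin k → Vx N} {G : Sx N}
    (hG : G ∈ I2x I x) (i : Fin k) : Hs G (x i) = 0 := by
  have h1 := ((hH N).2.2.2 G hG.1.2).2.2.2.1 (x i)
  rw [hG.2 i] at h1
  by_contra h
  exact ExtAux.lf_ne h h1.symm

theorem hs_span (hH : S_Hsf) {I : Ideal (Sx N)} {k : ℕ} {x : Fin k → Vx N} {G : Sx N}
    (hG : G ∈ I2x I x) {e : Vx N} (he : e ∈ Submodule.span ℂ (Set.range x)) : Hs G e = 0 := by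
  have h1 : Submodule.span ℂ (Set.range x) ≤ LinearMap.ker (Hs G) := by
    rw [Submodule.span_le]
    rintro _ ⟨i, rfl⟩
    exact hs_x hH hG i
  exact h1 he

theorem iso (hH : S_Hsf) (hTQ : S_TQ) {c : ℕ} {I : Ideal (Sx N)} (hI : I.IsPrime) (hh : IsHom I)
    (hs : Smooth I c) {k : ℕ} {x : Fin k → Vx N} (hx : ∀ i, x i ∈ zer I ∧ x i ≠ 0) (j : Fin k)
    {G : Sx N} (hG : G ∈ I2x I x) {t t' : Vx N} (ht : t ∈ TT I x j) (ht' : t' ∈ TT I x j) :
    dp (Hs G t) t' = 0 := by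
  obtain ⟨τ, hτ, e, he, rfl⟩ := Submodule.mem_sup.1 ht
  obtain ⟨τ', hτ', e', he', rfl⟩ := Submodule.mem_sup.1 ht'
  rw [map_add, hs_span hH hG he, add_zero, dp_add,
    (hTQ N c I hI hh hs (x j) (hx j).1 (hx j).2 G hG.1.1 hG.1.2 (hG.2 j) τ hτ).2 τ' hτ',
    (hH N).2.2.1 G τ e', hs_span hH hG he', zero_add]
  unfold dp
  simp

theorem fr_T (hTS : S_TS) {c : ℕ} {I : Ideal (Sx N)} (hI : I.IsPrime) (hh : IsHom I)
    (hs : Smooth I c) (hN : N = 2 * c + 3) (hc : 4 ≤ c) {x : Fin (c - 2) → Vx N}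
    (hx : ∀ i, x i ∈ zer I ∧ x i ≠ 0)
    (hT : ∀ j, ∀ γ : Fin (c - 2) → ℂ, ∑ i, γ i • x i ∈ TS I (x j) → ∀ i, i ≠ j → γ i = 0)
    (j : Fin (c - 2)) : 2 * c + 1 ≤ Module.finrank ℂ (TT I x j) := by
  have hli : LinearIndependent ℂ x := by
    rw [Fintype.linearIndependent_iff]
    intro γ hγ i
    have h1 : ∀ j, ∀ i, i ≠ j → γ i = 0 := fun j => hT j γ (by rw [hγ]; exact Submodule.zero_mem _)
    obtain ⟨j', hj'⟩ : ∃ j' : Fin (c - 2), i ≠ j' := by
      by_cases hi : (i : ℕ) = 0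
      · exact ⟨⟨1, by omega⟩, fun h => by rw [h] at hi; exact absurd hi one_ne_zero⟩
      · exact ⟨⟨0, by omega⟩, fun h => hi (by rw [h])⟩
    exact h1 j' i hj'
  have h1 := finrank_span_eq_card hli
  rw [Fintype.card_fin] at h1
  have h2 := Submodule.finrank_sup_add_finrank_inf_eq (TS I (x j)) (Submodule.span ℂ (Set.range x))
  obtain ⟨h3, h4, -⟩ := hTS N c I hI hh hs (x j) (hx j).1 (hx j).2
  have h5 : TS I (x j) ⊓ Submodule.span ℂ (Set.range x) ≤ Submodule.span ℂ {x j} := by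
    rintro y ⟨hy1, hy2⟩
    obtain ⟨γ, rfl⟩ := (Submodule.mem_span_range_iff_exists_fun ℂ).1 hy2
    have h6 := hT j γ hy1
    rw [Finset.sum_eq_single j (fun i _ hi => by rw [h6 i hi, zero_smul])
      (fun h => absurd (Finset.mem_univ j) h)]
    exact Submodule.smul_mem _ _ (Submodule.mem_span_singleton_self _)
  have h6 := (Submodule.finrank_mono h5).trans (finrank_span_singleton (K := ℂ) (hx j).2).le
  unfold TT
  omega

/-- Step (3). -/
theorem step (hH : S_Hsf) (hTQ : S_TQ) (hRk : S_Rk6) {c : ℕ} {I : Ideal (Sx N)} (hI : I.IsPrime)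
    (hh : IsHom I) (hnd : ∀ F ∈ I, F.IsHomogeneous 1 → F = 0) (hs : Smooth I c)
    (hN : N = 2 * c + 3) (hc : 4 ≤ c) {x : Fin (c - 2) → Vx N}
    (hx : ∀ i, x i ∈ zer I ∧ x i ≠ 0) (j : Fin (c - 2))
    (hfr : 2 * c + 1 ≤ Module.finrank ℂ (TT I x j)) {G : Sx N} (hG : G ∈ I2x I x) (hG0 : G ≠ 0) :
    Kq G ≤ TT I x j ∧ Module.finrank ℂ ((bd N).orthogonal (TT I x j)) = 3 ∧
      ∀ φ ∈ (bd N).orthogonal (TT I x j), ∃ t ∈ TT I x j, Hs G t = φ := by
  set T := TT I x j with hTdef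
  have h1 := LinearMap.BilinForm.finrank_orthogonal bd_nd T
  rw [Module.finrank_fin_fun] at h1
  have hle := Submodule.finrank_le T
  rw [Module.finrank_fin_fun] at hle
  have hK := (hRk N c I hN hI hh hnd hs G hG.1.1 hG.1.2 hG0).2
  set f : T →ₗ[ℂ] Vx N := (Hs G).domRestrict T with hf
  have hr : LinearMap.range f ≤ (bd N).orthogonal T := by
    rintro _ ⟨t, rfl⟩
    rw [mem_orth]
    intro u hu
    rw [dp_comm]
    exact iso hH hTQ hI hh hs hx j hG t.2 hu
  have hrk := LinearMap.finrank_range_add_finrank_ker f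
  have hmap : (LinearMap.ker f).map T.subtype ≤ Kq G := by
    rintro _ ⟨t, ht, rfl⟩
    exact ht
  have hmapT : (LinearMap.ker f).map T.subtype ≤ T := by
    rintro _ ⟨t, -, rfl⟩
    exact t.2
  have hfm : Module.finrank ℂ ((LinearMap.ker f).map T.subtype) =
      Module.finrank ℂ (LinearMap.ker f) :=
    Submodule.finrank_map_subtype_eq T _
  have h2 := Submodule.finrank_mono hmap
  have h3 := Submodule.finrank_mono hr
  have h4 : (LinearMap.ker f).map T.subtype = Kq G :=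
    Submodule.eq_of_le_of_finrank_le hmap (by omega)
  have h5 : LinearMap.range f = (bd N).orthogonal T :=
    Submodule.eq_of_le_of_finrank_le hr (by omega)
  refine ⟨h4 ▸ hmapT, by omega, fun φ hφ => ?_⟩
  rw [← h5] at hφ
  obtain ⟨t, ht⟩ := hφ
  exact ⟨t.1, t.2, ht⟩

end C4Aux

open C4Aux

theorem tC4 : S_TS → S_Hsf → S_TQ → S_Rk6 → S_Kro → S_Pts → S_Cnt → S_C4 := by
  intro hTS hH hTQ hRk hKro hPts hCnt N c I hc hN hI hh hnd hs hq
  obtain ⟨x, hx, hT, i, j, hij⟩ := hPts N c I hc hN hI hh hnd hs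
  have hfr := fr_T hTS hI hh hs hN hc hx hT
  have h1 := hCnt N c (c - 2) I hI hh hs x hx hT
  have h2 := sum_c (c - 2)
  rw [show c - 2 + 2 = c by omega] at h2
  have h3 : 1 < Module.finrank ℂ (I2x I x) := by omega
  have hnt : ∃ G₁ : I2x I x, G₁ ≠ 0 := by
    by_contra hcon
    push Not at hcon
    have : Subsingleton (I2x I x) := ⟨fun a b => by rw [hcon a, hcon b]⟩
    rw [Module.finrank_zero_of_subsingleton] at h3
    omega
  obtain ⟨G₁, hG₁⟩ := hnt
  obtain ⟨G₂, hG⟩ := exists_linearIndependent_pair_of_one_lt_finrank h3 hG₁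
  rw [LinearIndependent.pair_iff] at hG
  have main : ∀ i j, TT I x j ≤ TT I x i := by
    intro i j
    obtain ⟨-, h3', -⟩ := step hH hTQ hRk hI hh hnd hs hN hc hx j (hfr j) G₁.2
      (fun h => hG₁ (Subtype.ext h))
    let κ : (bd N).orthogonal (TT I x j) ≃ₗ[ℂ] (Fin 3 → ℂ) :=
      LinearEquiv.ofFinrankEq _ _ (by rw [h3', Module.finrank_fin_fun])
    have hmem : ∀ (G : I2x I x) (t : TT I x j), Hs G.1 t.1 ∈ (bd N).orthogonal (TT I x j) := by
      intro G t
      rw [mem_orth]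
      intro u hu
      rw [dp_comm]
      exact iso hH hTQ hI hh hs hx j G.2 t.2 hu
    let l : I2x I x → (TT I x j →ₗ[ℂ] (Fin 3 → ℂ)) := fun G =>
      κ.toLinearMap ∘ₗ LinearMap.codRestrict _ ((Hs G.1).domRestrict (TT I x j)) (hmem G)
    have hl : ∀ a b : ℂ, a • l G₁ + b • l G₂ = l (a • G₁ + b • G₂) := by
      intro a b
      refine LinearMap.ext fun t => ?_
      have e : (⟨Hs (a • G₁ + b • G₂ : I2x I x).1 t.1, hmem _ t⟩ :
          (bd N).orthogonal (TT I x j)) = a • ⟨Hs G₁.1 t.1, hmem _ t⟩ + b • ⟨Hs G₂.1 t.1, hmem _ t⟩ := by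
        refine Subtype.ext ?_
        change Hs (a • G₁.1 + b • G₂.1) t.1 = a • Hs G₁.1 t.1 + b • Hs G₂.1 t.1
        rw [(hH N).1, (hH N).2.1, (hH N).2.1]
        rfl
      change a • κ ⟨Hs G₁.1 t.1, hmem _ t⟩ + b • κ ⟨Hs G₂.1 t.1, hmem _ t⟩ =
        κ ⟨Hs (a • G₁ + b • G₂ : I2x I x).1 t.1, hmem _ t⟩
      rw [e, map_add, map_smul, map_smul]
    have hU := hKro (TT I x j) (l G₁) (l G₂) ((TT I x i).comap (TT I x j).subtype)
      (fun a b hab => by
        rw [hl]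
        have hne : ((a • G₁ + b • G₂ : I2x I x) : Sx N) ≠ 0 := by
          intro h
          have h4 := hG a b (Subtype.ext h)
          rcases hab with h5 | h5
          · exact h5 h4.1
          · exact h5 h4.2
        have s1 := step hH hTQ hRk hI hh hnd hs hN hc hx j (hfr j) (a • G₁ + b • G₂).2 hne
        have s2 := step hH hTQ hRk hI hh hnd hs hN hc hx i (hfr i) (a • G₁ + b • G₂).2 hne
        refine ⟨fun v => ?_, fun t ht => ?_⟩
        · obtain ⟨t, ht, h5⟩ := s1.2.2 (κ.symm v).1 (κ.symm v).2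
          refine ⟨⟨t, ht⟩, ?_⟩
          change κ ⟨Hs (a • G₁ + b • G₂ : I2x I x).1 t, _⟩ = v
          rw [← LinearEquiv.eq_symm_apply]
          exact Subtype.ext h5
        · rw [LinearMap.mem_ker] at ht
          have h5 : κ ⟨Hs (a • G₁ + b • G₂ : I2x I x).1 t.1, hmem _ t⟩ = 0 := ht
          rw [LinearEquiv.map_eq_zero_iff] at h5
          have h6 : Hs (a • G₁ + b • G₂ : I2x I x).1 t.1 = 0 := congrArg Subtype.val h5
          exact s2.1 h6)
    intro t ht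
    have h4 : (⟨t, ht⟩ : TT I x j) ∈ (TT I x i).comap (TT I x j).subtype := by
      rw [hU]
      exact Submodule.mem_top
    exact h4
  exact hij (le_trans le_sup_left (main j i))

end Pool.Agent.Lib.MP_776403_ag.SD.E2
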