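import Pool.Agent.Lib.MP_776403_ag.SD.E2.Spec
import Pool.Agent.Lib.MP_776403_ag.SD.Null

/-!
# Case `deg X = c + 2`, `n = c + 3`: closure of conormality
-/

set_option autoImplicit false

open MvPolynomial

noncomputable section

namespace Pool.Agent.Lib.MP_776403_ag.SD.E2

open LI

namespace ClCAux

variable {N : ℕ}

theorem eval_sum_C (ξ : Vx N) (w : Fin (N + 1) → Sx N) (z : Vx N) :
    eval z (∑ i, C (ξ i) * w i) = dp ξ (fun i => eval z (w i)) := by
  rw [map_sum]
  unfold dp
  exact Finset.sum_congr rfl fun i _ => by rw [map_mul, eval_C]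

theorem mem_TS_of_TF {I : Ideal (Sx N)} {w : Fin (N + 1) → Sx N} (hw : w ∈ TF I) {z : Vx N}
    (hz : z ∈ zer I) : (fun i => eval z (w i)) ∈ TS I z := by
  intro F hF
  have h1 := hz _ (hw F hF)
  rw [map_sum] at h1
  rw [← h1]
  unfold dp grad
  exact Finset.sum_congr rfl fun i _ => by rw [map_mul]

end ClCAux

open ClCAux in
/-- A covector which is conormal at the general points of a subvariety is conormal at all points. -/
theorem tClC (hTS : S_TS) : S_ClC := by
  intro N c I hI hIh hS P hP hPh hIP η hη ξ h y hy hy0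
  have hyI : y ∈ zer I := fun F hF => hy F (hIP hF)
  obtain ⟨l, hl⟩ := Function.ne_iff.mp hy0
  obtain ⟨-, -, hTF, -, hann⟩ := hTS N c I hI hIh hS y hyI hy0
  have key : ∀ τ ∈ TS I y, dp ξ τ = 0 := by
    intro τ hτ
    obtain ⟨w, hw, hwτ⟩ := hTF τ hτ
    have h1 : X l * η * (∑ i, C (ξ i) * w i) ∈ P := by
      refine (tNull N P hP hPh).1 _ fun z hz => ?_
      rw [map_mul, map_mul, eval_X, eval_sum_C]
      by_cases hzl : z l = 0
      · rw [hzl, zero_mul, zero_mul]
      by_cases hze : eval z η = 0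
      · rw [hze, mul_zero, zero_mul]
      have hz0 : z ≠ 0 := by
        rintro rfl
        exact hzl rfl
      rw [h z hz hz0 hze _ (mem_TS_of_TF hw fun F hF => hz F (hIP hF)), mul_zero]
    have hX : (X l : Sx N) ∉ P := fun hx => hl (by
      have h2 := hy _ hx
      rwa [eval_X] at h2)
    have hQ : (∑ i, C (ξ i) * w i) ∈ P := by
      rcases hP.mem_or_mem h1 with h2 | h2
      · rcases hP.mem_or_mem h2 with h3 | h3
        · exact absurd h3 hX
        · exact absurd h3 hη
      · exact h2
    have h3 := hy _ hQ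
    rw [eval_sum_C] at h3
    have h4 : (fun i => eval y (w i)) = τ := funext hwτ
    rwa [h4] at h3
  obtain ⟨F, hF, hx⟩ := hann ξ key
  exact Submodule.subset_span ⟨F, hF, hx⟩

end Pool.Agent.Lib.MP_776403_ag.SD.E2
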