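import Pool.Agent.Lib.MP_776403_ag.SD.E2.Spec
import Pool.Agent.Lib.MP_776403_ag.SD.LI.Opn
import Pool.Agent.Lib.MP_776403_ag.SD.E.CN

/-!
# Case `deg X = c + 2`, `n = c + 3`: counting quadrics singular at `k` points (module Cnt, helper55)
-/

set_option autoImplicit false

open MvPolynomial

noncomputable section

namespace Pool.Agent.Lib.MP_776403_ag.SD.E2

open LI

namespace CntAux

variable {N : ℕ}

/-- Quadrics form a finite-dimensional space. -/
theorem fin_of_le {V : Submodule ℂ (Sx N)} (h : V ≤ homogeneousSubmodule (Fin (N + 1)) ℂ 2) :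
    FiniteDimensional ℂ V := by
  have h0 : FiniteDimensional ℂ (homogeneousSubmodule (Fin (N + 1)) ℂ 2) :=
    Module.Finite.iff_fg.2 (homogeneousSubmodule_fg (Fin (N + 1)) ℂ 2)
  exact Submodule.finiteDimensional_of_le h

theorem I2x_le (I : Ideal (Sx N)) {k : ℕ} (x : Fin k → Vx N) :
    I2x I x ≤ homogeneousSubmodule (Fin (N + 1)) ℂ 2 := fun _ h => h.1.2

/-- `G ↦ Hs G u`. -/
def HL (h : S_Hsf) (u : Vx N) : Sx N →ₗ[ℂ] Vx N where
  toFun G := Hs G u
  map_add' G G' := by
    rw [(h N).1 G G', LinearMap.add_apply]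
  map_smul' r G := by
    rw [(h N).2.1 r G, LinearMap.smul_apply, RingHom.id_apply]

theorem HL_apply (h : S_Hsf) (u : Vx N) (G : Sx N) : HL h u G = Hs G u := rfl

/-- The conormal vectors which kill the points `w`. -/
theorem finrank_W {k c : ℕ} (I : Ideal (Sx N)) (hS : Smooth I c) (w : Fin k → Vx N) (z : Vx N)
    (hz : z ∈ zer I) (hz0 : z ≠ 0) (hT : Trv I w z) :
    Module.finrank ℂ (CN I z ⊓ LinearMap.ker (OpnAux.ev w) : Submodule ℂ (Vx N)) + k = c := by
  obtain ⟨h1, h2, -⟩ := eCN N c I hS z hz hz0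
  have hs := OpnAux.surj I w z hT h2
  set L := (OpnAux.ev w).domRestrict (CN I z) with hL
  have hr : LinearMap.range L = ⊤ := by
    rw [hL, LinearMap.range_domRestrict]
    exact hs
  have hrk := LinearMap.finrank_range_add_finrank_ker L
  rw [hr, finrank_top, Module.finrank_fin_fun, h1] at hrk
  have hk : Module.finrank ℂ (LinearMap.ker L) =
      Module.finrank ℂ (CN I z ⊓ LinearMap.ker (OpnAux.ev w) : Submodule ℂ (Vx N)) := by
    have e : (LinearMap.ker L).map (CN I z).subtype = CN I z ⊓ LinearMap.ker (OpnAux.ev w) := by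
      ext φ
      constructor
      · rintro ⟨⟨ψ, hψ⟩, hψ', rfl⟩
        exact ⟨hψ, hψ'⟩
      · rintro ⟨hφ, hφ'⟩
        exact ⟨⟨φ, hφ⟩, hφ', rfl⟩
    rw [← e]
    exact (LinearEquiv.finrank_eq
      (Submodule.equivMapOfInjective _ (Submodule.injective_subtype _) _))
  omega

/-- The step. -/
theorem step (h : S_Hsf) {c k : ℕ} (I : Ideal (Sx N)) (hS : Smooth I c) (x : Fin (k + 1) → Vx N)
    (hx : x (Fin.last k) ∈ zer I) (hx0 : x (Fin.last k) ≠ 0)
    (hT : Trv I (fun i : Fin k => x i.castSucc) (x (Fin.last k))) :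
    Module.finrank ℂ (I2x I fun i : Fin k => x i.castSucc) ≤
      Module.finrank ℂ (I2x I x) + (c - k) := by
  set V := I2x I fun i : Fin k => x i.castSucc with hV
  have : FiniteDimensional ℂ V := fin_of_le (I2x_le I _)
  have : FiniteDimensional ℂ (I2x I x) := fin_of_le (I2x_le I _)
  set L := (HL h (x (Fin.last k))).domRestrict V with hL
  have hrk := LinearMap.finrank_range_add_finrank_ker L
  have hker : Module.finrank ℂ (LinearMap.ker L) ≤ Module.finrank ℂ (I2x I x) := by
    have e : (LinearMap.ker L).map V.subtype ≤ I2x I x := by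
      rintro _ ⟨⟨G, hG⟩, hG', rfl⟩
      refine ⟨hG.1, fun i => ?_⟩
      refine Fin.lastCases ?_ (fun j => hG.2 j) i
      have h1 : Hs G (x (Fin.last k)) = 0 := hG'
      have h2 := ((h N).2.2.2 G hG.1.2).2.2.2.1 (x (Fin.last k))
      change dd (x (Fin.last k)) G = 0
      rw [h2, h1]
      simp [lf]
    have e2 : Module.finrank ℂ ((LinearMap.ker L).map V.subtype) = Module.finrank ℂ (LinearMap.ker L) :=
      (LinearEquiv.finrank_eq
        (Submodule.equivMapOfInjective _ (Submodule.injective_subtype _) _)).symm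
    rw [← e2]
    exact Submodule.finrank_mono e
  have hran : Module.finrank ℂ (LinearMap.range L) ≤ c - k := by
    have e : LinearMap.range L ≤ CN I (x (Fin.last k)) ⊓
        LinearMap.ker (OpnAux.ev fun i : Fin k => x i.castSucc) := by
      rintro _ ⟨⟨G, hG⟩, rfl⟩
      obtain ⟨hg, -, -, hd, -⟩ := (h N).2.2.2 G hG.1.2
      refine ⟨?_, ?_⟩
      · change Hs G (x (Fin.last k)) ∈ CN I (x (Fin.last k))
        rw [← hg]
        exact Submodule.subset_span ⟨G, hG.1.1, rfl⟩
      · change OpnAux.ev (fun i : Fin k => x i.castSucc) (Hs G (x (Fin.last k))) = 0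
        funext i
        rw [OpnAux.ev_apply, (h N).2.2.1 G]
        have h1 : dd (x i.castSucc) G = 0 := hG.2 i
        rw [hd] at h1
        have h2 : eval (x (Fin.last k)) (lf (Hs G (x i.castSucc))) = 0 := by rw [h1, map_zero]
        have h3 : eval (x (Fin.last k)) (lf (Hs G (x i.castSucc))) =
            dp (Hs G (x i.castSucc)) (x (Fin.last k)) := by
          simp [lf, dp]
        rw [h3] at h2
        exact h2
    have h1 := Submodule.finrank_mono e
    have h2 := finrank_W I hS (fun i : Fin k => x i.castSucc) _ hx hx0 hT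
    omega
  omega

end CntAux

open CntAux

/-- (Cnt) Counting quadrics. -/
theorem tCnt (h : S_Hsf) : S_Cnt := by
  intro N c k I _ _ hS
  induction k with
  | zero =>
    intro x _ _
    have e : I2x I x = I2 I := by
      ext G
      exact ⟨fun hG => hG.1, fun hG => ⟨hG, fun i => i.elim0⟩⟩
    rw [e, Finset.range_zero, Finset.sum_empty, add_zero]
  | succ k ih =>
    intro x hx hT
    have h1 := ih (fun i => x i.castSucc) (fun i => hx _) (fun j γ hγ i hij => by
      have h2 := hT j.castSucc (Fin.snoc γ 0) (by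
        rw [Fin.sum_univ_castSucc]
        simpa only [Fin.snoc_castSucc, Fin.snoc_last, zero_smul, add_zero] using hγ) i.castSucc
          (fun hc => hij (Fin.castSucc_injective _ hc))
      rwa [Fin.snoc_castSucc] at h2)
    have h3 := step h I hS x (hx _).1 (hx _).2 (fun a ha => by
      funext i
      have h2 := hT (Fin.last k) (Fin.snoc a 0) (by
        rw [Fin.sum_univ_castSucc]
        simpa only [Fin.snoc_castSucc, Fin.snoc_last, zero_smul, add_zero] using ha) i.castSucc
          (Fin.castSucc_lt_last i).ne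
      rwa [Fin.snoc_castSucc] at h2)
    rw [Finset.sum_range_succ]
    omega

end Pool.Agent.Lib.MP_776403_ag.SD.E2
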