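import Pool.Agent.Lib.MP_776403_ag.SD.E2.Spec

/-!
# Basic facts on quadratic forms and their Hessians
-/

set_option autoImplicit false

open MvPolynomial

noncomputable section

namespace Pool.Agent.Lib.MP_776403_ag.SD.E2

open LI

namespace HsfAux

variable {N : ℕ}

lemma pd_comm (i j : Fin (N + 1)) (G : Sx N) : pderiv i (pderiv j G) = pderiv j (pderiv i G) := by
  have h : ∀ G : Sx N, pderiv i (pderiv j G) - pderiv j (pderiv i G) = 0 := by
    intro G
    have h1 := congrArg (fun D : Derivation ℂ (Sx N) (Sx N) => D G)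
      (show ⁅(pderiv i : Derivation ℂ (Sx N) (Sx N)), pderiv j⁆ = 0 from by
        refine MvPolynomial.derivation_ext ?_
        intro k
        have hc : ∀ a b : Fin (N + 1), pderiv a (pderiv b (X k : Sx N)) = 0 := by
          intro a b
          by_cases hb : k = b
          · rw [hb, pderiv_X_self, ← C_1, pderiv_C]
          · rw [pderiv_X_of_ne hb, map_zero]
        rw [Derivation.commutator_apply, hc, hc, sub_zero]
        rfl)
    rw [Derivation.commutator_apply] at h1
    exact h1
  exact sub_eq_zero.1 (h G)

lemma HM_symm (G : Sx N) (i j : Fin (N + 1)) : HM G i j = HM G j i := by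
  show eval 0 (pderiv i (pderiv j G)) = eval 0 (pderiv j (pderiv i G))
  rw [pd_comm]

lemma Hs_apply (G : Sx N) (u : Vx N) (j : Fin (N + 1)) : Hs G u j = ∑ i, HM G j i * u i := rfl

lemma symm (G : Sx N) (u v : Vx N) : dp (Hs G u) v = dp (Hs G v) u := by
  simp only [dp, Hs_apply, Finset.sum_mul]
  rw [Finset.sum_comm]
  refine Finset.sum_congr rfl ?_
  intro i _
  refine Finset.sum_congr rfl ?_
  intro j _
  rw [HM_symm G j i]
  ring

lemma const (F : Sx N) (hF : F.IsHomogeneous 0) (u : Vx N) : eval u F = eval 0 F := by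
  have h : F.totalDegree = 0 := Nat.le_zero.1 hF.totalDegree_le
  rw [totalDegree_eq_zero_iff_eq_C.1 h]
  simp

lemma grad_eq (G : Sx N) (hG : G.IsHomogeneous 2) (u : Vx N) : grad G u = Hs G u := by
  funext j
  rw [Hs_apply]
  have h1 : (pderiv j G).IsHomogeneous 1 := hG.pderiv
  have h2 := h1.sum_X_mul_pderiv
  have h3 := congrArg (eval u) h2
  rw [one_smul, map_sum] at h3
  show eval u (pderiv j G) = _
  rw [← h3]
  refine Finset.sum_congr rfl ?_
  intro i _
  rw [map_mul, eval_X]
  have h4 : (pderiv i (pderiv j G)).IsHomogeneous 0 := h1.pderiv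
  rw [const _ h4 u]
  have h5 : HM G j i = eval 0 (pderiv i (pderiv j G)) := HM_symm G j i
  rw [h5]
  ring

lemma two_mul_eval (G : Sx N) (hG : G.IsHomogeneous 2) (u : Vx N) :
    2 * eval u G = dp (Hs G u) u := by
  have h2 := hG.sum_X_mul_pderiv
  have h3 := congrArg (eval u) h2
  rw [map_sum, nsmul_eq_mul, map_mul] at h3
  have h4 : eval u ((2 : ℕ) : Sx N) = 2 := by simp
  rw [h4] at h3
  rw [← h3, ← grad_eq G hG]
  refine Finset.sum_congr rfl ?_
  intro i _
  rw [map_mul, eval_X]
  exact mul_comm _ _

lemma dp_add_right (a u v : Vx N) : dp a (u + v) = dp a u + dp a v := by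
  simp only [dp, Pi.add_apply, mul_add, Finset.sum_add_distrib]

lemma dp_add_left (a b u : Vx N) : dp (a + b) u = dp a u + dp b u := by
  simp only [dp, Pi.add_apply, add_mul, Finset.sum_add_distrib]

lemma eval_lf (a u : Vx N) : eval u (lf a) = dp a u := by
  simp only [lf, dp, map_sum, map_mul, eval_C, eval_X]

end HsfAux

open HsfAux

/-- (Hsf) basic facts on quadratic forms. -/
theorem tHsf : S_Hsf := by
  intro N
  refine ⟨?_, ?_, symm, ?_⟩
  · intro G G'
    have h : HM (G + G') = HM G + HM G' := by
      ext i j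
      simp only [HM, Matrix.of_apply, Matrix.add_apply, map_add]
    unfold Hs
    rw [h, Matrix.mulVecLin_add]
  · intro r G
    have h : HM (r • G) = r • HM G := by
      ext i j
      simp only [HM, Matrix.of_apply, Matrix.smul_apply, smul_eq_mul]
      rw [Derivation.map_smul, Derivation.map_smul, smul_eval]
    refine LinearMap.ext ?_
    intro u
    show (HM (r • G)).mulVec u = r • (HM G).mulVec u
    rw [h, Matrix.smul_mulVec]
  · intro G hG
    have hadd : ∀ u v, eval (u + v) G = eval u G + eval v G + dp (Hs G u) v := by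
      intro u v
      have h1 := two_mul_eval G hG (u + v)
      rw [map_add, dp_add_right, dp_add_left, dp_add_left, ← two_mul_eval G hG u,
        ← two_mul_eval G hG v, symm G v u] at h1
      have h2 : (2 : ℂ) * eval (u + v) G = 2 * (eval u G + eval v G + dp (Hs G u) v) := by
        rw [h1]
        ring
      exact mul_left_cancel₀ two_ne_zero h2
    refine ⟨grad_eq G hG, two_mul_eval G hG, hadd, ?_, ?_⟩
    · intro u
      refine MvPolynomial.funext ?_
      intro w
      rw [eval_lf, symm G u w, ← grad_eq G hG]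
      simp only [dd, dp, grad, map_sum, map_mul, eval_C]
      refine Finset.sum_congr rfl ?_
      intro i _
      exact mul_comm _ _
    · intro h0
      refine MvPolynomial.funext ?_
      intro u
      have h1 := two_mul_eval G hG u
      rw [h0] at h1
      have h2 : dp ((0 : Vx N →ₗ[ℂ] Vx N) u) u = 0 := by
        simp [dp]
      rw [h2] at h1
      rw [map_zero]
      exact (mul_eq_zero.1 h1).resolve_left two_ne_zero

end Pool.Agent.Lib.MP_776403_ag.SD.E2
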