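import Pool.Agent.Lib.MP_776403_ag.SD.E2.Spec

/-!
# Kronecker's lemma
-/

set_option autoImplicit false

open MvPolynomial

noncomputable section

namespace Pool.Agent.Lib.MP_776403_ag.SD.E2

open LI

namespace KroAux

variable {T : Type} [AddCommGroup T] [Module ℂ T] (l₁ l₂ : T →ₗ[ℂ] (Fin 3 → ℂ)) (τ : T →ₗ[ℂ] ℂ)

/-- the relation between `D` and `Ψ` -/
def Q (D : Polynomial ℂ) (Ψ : Fin 3 → Polynomial ℂ) : Prop :=
  ∀ t : T, ∑ k, Ψ k * (Polynomial.C (l₁ t k) + Polynomial.X * Polynomial.C (l₂ t k)) = D * Polynomial.C (τ t)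

/-- the matrix of the pencil on the vectors `p j` -/
def M (p : Fin 3 → T) : Matrix (Fin 3) (Fin 3) (Polynomial ℂ) :=
  Matrix.of fun k j => Polynomial.C (l₁ (p j) k) + Polynomial.X * Polynomial.C (l₂ (p j) k)

lemma exQ (hk : ∀ s : ℂ, LinearMap.ker (l₁ + s • l₂) ≤ LinearMap.ker τ)
    (hs : Function.Surjective l₁) : ∃ D Ψ, D ≠ 0 ∧ Q l₁ l₂ τ D Ψ := by
  choose g hg using hs
  set p : Fin 3 → T := fun j => g (Pi.single j 1) with hp
  have hM : ∀ s : ℂ, ∀ k j, (M l₁ l₂ p k j).eval s = (l₁ + s • l₂) (p j) k := by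
    intro s k j
    simp [M]
    ring
  refine ⟨(M l₁ l₂ p).det, fun k => ∑ j, Polynomial.C (τ (p j)) * (M l₁ l₂ p).adjugate j k, ?_, ?_⟩
  · intro h0
    have h1 : (Polynomial.evalRingHom (0 : ℂ)).mapMatrix (M l₁ l₂ p) = 1 := by
      ext k j
      rw [RingHom.mapMatrix_apply, Matrix.map_apply, Polynomial.coe_evalRingHom, hM, zero_smul, add_zero, hp]
      simp only [hg]
      rw [Matrix.one_apply, Pi.single_apply]
    have h2 : Polynomial.evalRingHom (0 : ℂ) (M l₁ l₂ p).det = 1 := by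
      rw [RingHom.map_det, h1, Matrix.det_one]
    rw [h0, map_zero] at h2
    exact zero_ne_one h2
  · intro t
    apply Polynomial.funext
    intro s
    set A : Matrix (Fin 3) (Fin 3) ℂ := (Polynomial.evalRingHom s).mapMatrix (M l₁ l₂ p) with hA
    have hAkj : ∀ k j, A k j = (l₁ + s • l₂) (p j) k := by
      intro k j
      rw [hA, RingHom.mapMatrix_apply, Matrix.map_apply, Polynomial.coe_evalRingHom, hM]
    have hdet : ((M l₁ l₂ p).det).eval s = A.det := by
      rw [hA, ← RingHom.map_det, Polynomial.coe_evalRingHom]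
    have hadj : ∀ j k, ((M l₁ l₂ p).adjugate j k).eval s = A.adjugate j k := by
      intro j k
      rw [hA, ← RingHom.map_adjugate, RingHom.mapMatrix_apply, Matrix.map_apply, Polynomial.coe_evalRingHom]
    set v : Fin 3 → ℂ := (l₁ + s • l₂) t with hv
    set a : Fin 3 → ℂ := A.adjugate.mulVec v with ha
    have h1 : A.mulVec a = A.det • v := by
      rw [ha, Matrix.mulVec_mulVec, Matrix.mul_adjugate, Matrix.smul_mulVec, Matrix.one_mulVec]
    have h2 : A.det • t - ∑ j, a j • p j ∈ LinearMap.ker (l₁ + s • l₂) := by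
      rw [LinearMap.mem_ker, map_sub, map_smul, ← hv, ← h1, map_sum, sub_eq_zero]
      ext k
      rw [Finset.sum_apply]
      simp only [map_smul, Pi.smul_apply, smul_eq_mul, Matrix.mulVec, dotProduct]
      exact Finset.sum_congr rfl fun j _ => by rw [hAkj, mul_comm]
    have h3 := hk s h2
    rw [LinearMap.mem_ker, map_sub, map_smul, map_sum, sub_eq_zero] at h3
    simp only [map_smul, smul_eq_mul] at h3
    have h4 : ∀ k, (Polynomial.C (l₁ t k) + Polynomial.X * Polynomial.C (l₂ t k)).eval s = v k := by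
      intro k
      simp [hv]
      ring
    rw [Polynomial.eval_finsetSum, Polynomial.eval_mul, Polynomial.eval_C, hdet, h3]
    simp only [Polynomial.eval_mul, Polynomial.eval_finsetSum, Polynomial.eval_C, hadj, h4]
    simp only [ha, Matrix.mulVec, dotProduct, Finset.sum_mul]
    rw [Finset.sum_comm]
    exact Finset.sum_congr rfl fun j _ => Finset.sum_congr rfl fun k _ => by ring

variable {l₁ l₂ τ}

/-- cancelling a root of `D` -/
lemma root {D : Polynomial ℂ} {Ψ : Fin 3 → Polynomial ℂ} (hQ : Q l₁ l₂ τ D Ψ) {s : ℂ} (hs : D.eval s = 0)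
    (hsur : Function.Surjective (l₁ + s • l₂)) :
    ∃ D' Ψ', D = (Polynomial.X - Polynomial.C s) * D' ∧ Q l₁ l₂ τ D' Ψ' := by
  have h1 : ∀ k, (Ψ k).eval s = 0 := by
    intro k
    obtain ⟨t, ht⟩ := hsur (Pi.single k 1)
    have h2 := congrArg (Polynomial.eval s) (hQ t)
    rw [Polynomial.eval_finsetSum, Polynomial.eval_mul, hs, zero_mul] at h2
    have h4 : ∀ k', (Polynomial.C (l₁ t k') + Polynomial.X * Polynomial.C (l₂ t k')).eval s =
        (Pi.single k 1 : Fin 3 → ℂ) k' := by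
      intro k'
      rw [← ht]
      simp
      ring
    simp only [Polynomial.eval_mul, h4] at h2
    rw [Finset.sum_eq_single k] at h2
    · rwa [Pi.single_eq_same, mul_one] at h2
    · intro b _ hb
      rw [Pi.single_eq_of_ne hb, mul_zero]
    · intro hk
      exact absurd (Finset.mem_univ k) hk
  have h2 : ∀ k, ∃ q, Ψ k = (Polynomial.X - Polynomial.C s) * q := fun k =>
    Polynomial.dvd_iff_isRoot.2 (h1 k)
  choose Ψ' hΨ' using h2
  obtain ⟨D', hD'⟩ : ∃ q, D = (Polynomial.X - Polynomial.C s) * q := Polynomial.dvd_iff_isRoot.2 hs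
  refine ⟨D', Ψ', hD', ?_⟩
  intro t
  apply mul_left_cancel₀ (Polynomial.X_sub_C_ne_zero s)
  rw [← mul_assoc, ← hD', ← hQ t, Finset.mul_sum]
  exact Finset.sum_congr rfl fun k _ => by rw [hΨ' k, mul_assoc]

/-- `D` may be taken constant -/
lemma const (h : ∀ s : ℂ, Function.Surjective (l₁ + s • l₂)) :
    ∀ (n : ℕ) (D : Polynomial ℂ) (Ψ : Fin 3 → Polynomial ℂ), D.natDegree = n → D ≠ 0 → Q l₁ l₂ τ D Ψ →
      ∃ (d : ℂ) (Ψ' : Fin 3 → Polynomial ℂ), d ≠ 0 ∧ Q l₁ l₂ τ (Polynomial.C d) Ψ' := by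
  intro n
  induction n with
  | zero =>
    intro D Ψ hn h0 hQ
    rw [Polynomial.eq_C_of_natDegree_eq_zero hn] at hQ h0
    exact ⟨_, Ψ, fun e => h0 (by rw [e, Polynomial.C_0]), hQ⟩
  | succ n ih =>
    intro D Ψ hn h0 hQ
    obtain ⟨s, hs⟩ := IsAlgClosed.exists_root D (by
      rw [Polynomial.degree_eq_natDegree h0, hn]
      exact_mod_cast Nat.succ_ne_zero n)
    obtain ⟨D', Ψ', hD, hQ'⟩ := root hQ hs (h s)
    have h0' : D' ≠ 0 := by
      rintro rfl
      exact h0 (by rw [hD, mul_zero])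
    refine ih D' Ψ' ?_ h0' hQ'
    rw [hD, Polynomial.natDegree_mul (Polynomial.X_sub_C_ne_zero s) h0', Polynomial.natDegree_X_sub_C] at hn
    omega

/-- `Ψ = 0` -/
lemma zero {d : ℂ} {Ψ : Fin 3 → Polynomial ℂ} (hQ : Q l₁ l₂ τ (Polynomial.C d) Ψ)
    (h : Function.Surjective l₂) :
    ∀ n : ℕ, (∀ k, ∀ i, n ≤ i → (Ψ k).coeff i = 0) → ∀ k, Ψ k = 0 := by
  intro n
  induction n with
  | zero =>
    intro hn k
    ext i
    rw [hn k i (Nat.zero_le i), Polynomial.coeff_zero]
  | succ n ih =>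
    intro hn
    apply ih
    intro k i hi
    rcases Nat.eq_or_lt_of_le hi with rfl | hlt
    · obtain ⟨t, ht⟩ := h (Pi.single k 1)
      have h2 := congrArg (fun P => Polynomial.coeff P (n + 1)) (hQ t)
      simp only [Polynomial.finsetSum_coeff, mul_add, Polynomial.coeff_add] at h2
      rw [← Polynomial.C_mul, Polynomial.coeff_C, if_neg (Nat.succ_ne_zero n)] at h2
      have h3 : ∀ k', (Ψ k' * Polynomial.C (l₁ t k')).coeff (n + 1) +
          (Ψ k' * (Polynomial.X * Polynomial.C (l₂ t k'))).coeff (n + 1) =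
          (Ψ k').coeff n * (Pi.single k 1 : Fin 3 → ℂ) k' := by
        intro k'
        rw [← ht, Polynomial.coeff_mul_C, hn k' (n + 1) le_rfl, zero_mul, zero_add, ← mul_assoc,
          Polynomial.coeff_mul_C, Polynomial.coeff_mul_X]
      rw [Finset.sum_congr rfl fun k' _ => h3 k', Finset.sum_eq_single k] at h2
      · rwa [Pi.single_eq_same, mul_one] at h2
      · intro b _ hb
        rw [Pi.single_eq_of_ne hb, mul_zero]
      · intro hk
        exact absurd (Finset.mem_univ k) hk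
    · exact hn k i hlt

end KroAux

open KroAux

/-- Kronecker's lemma -/
theorem tKro : S_Kro := by
  intro T _ _ _ l₁ l₂ U h
  by_contra hU
  obtain ⟨τ, hτ0, hτU⟩ := Submodule.exists_le_ker_of_lt_top U (lt_top_iff_ne_top.2 hU)
  have h1 : ∀ s : ℂ, Function.Surjective (l₁ + s • l₂) ∧ LinearMap.ker (l₁ + s • l₂) ≤ U := by
    intro s
    have h2 := h 1 s (Or.inl one_ne_zero)
    rwa [one_smul] at h2
  have hs1 : Function.Surjective l₁ := by
    have h2 := (h1 0).1
    rwa [zero_smul, add_zero] at h2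
  have hs2 : Function.Surjective l₂ := by
    have h2 := (h 0 1 (Or.inr one_ne_zero)).1
    rwa [zero_smul, one_smul, zero_add] at h2
  obtain ⟨D, Ψ, hD, hQ⟩ := exQ l₁ l₂ τ (fun s => (h1 s).2.trans hτU) hs1
  obtain ⟨d, Ψ', hd, hQ'⟩ := const (fun s => (h1 s).1) _ D Ψ rfl hD hQ
  have h3 : ∀ k, Ψ' k = 0 := by
    apply KroAux.zero hQ' hs2 (Finset.univ.sup fun k => (Ψ' k).natDegree + 1)
    intro k i hi
    apply Polynomial.coeff_eq_zero_of_natDegree_lt
    have h4 : (Ψ' k).natDegree + 1 ≤ Finset.univ.sup fun k => (Ψ' k).natDegree + 1 :=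
      Finset.le_sup (f := fun k => (Ψ' k).natDegree + 1) (Finset.mem_univ k)
    omega
  apply hτ0
  ext t
  have h4 := hQ' t
  simp only [h3, zero_mul, Finset.sum_const_zero] at h4
  rw [← Polynomial.C_mul, eq_comm, Polynomial.C_eq_zero] at h4
  rw [LinearMap.zero_apply]
  exact (mul_eq_zero.1 h4).resolve_left hd

end Pool.Agent.Lib.MP_776403_ag.SD.E2
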