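import Pool.Agent.Lib.MP_776403_ag.SD.E2.Spec

/-!
# Linear algebra of a symmetric map with an isotropic vector (`S_LQ`)
-/

set_option autoImplicit false

open MvPolynomial

noncomputable section

namespace Pool.Agent.Lib.MP_776403_ag.SD.E2

open LI

namespace LQAux

variable {N : ℕ}

theorem add_l (a b y : Vx N) : dp (a + b) y = dp a y + dp b y := by
  simp [dp, add_mul, Finset.sum_add_distrib]

theorem smul_l (r : ℂ) (a y : Vx N) : dp (r • a) y = r * dp a y := by
  simp [dp, Finset.mul_sum, mul_assoc]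

theorem add_r (a y z : Vx N) : dp a (y + z) = dp a y + dp a z := by
  simp [dp, mul_add, Finset.sum_add_distrib]

theorem smul_r (r : ℂ) (a y : Vx N) : dp a (r • y) = r * dp a y := by
  simp only [dp, Finset.mul_sum, Pi.smul_apply, smul_eq_mul]
  exact Finset.sum_congr rfl fun i _ => by ring

theorem sub_l (a b y : Vx N) : dp (a - b) y = dp a y - dp b y := by
  simp [dp, sub_mul, Finset.sum_sub_distrib]

theorem sub_r (a y z : Vx N) : dp a (y - z) = dp a y - dp a z := by
  simp [dp, mul_sub, Finset.sum_sub_distrib]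

theorem single_r (a : Vx N) (i : Fin (N + 1)) : dp a (Pi.single i 1) = a i := by
  simp [dp, Pi.single_apply]

theorem ext_dp {a b : Vx N} (h : ∀ v, dp a v = dp b v) : a = b := by
  funext i
  have := h (Pi.single i 1)
  rwa [single_r, single_r] at this

/-- pairing with two vectors -/
def ph (q q' : Vx N) : Vx N →ₗ[ℂ] ℂ × ℂ where
  toFun w := (dp w q, dp w q')
  map_add' a b := by rw [add_l, add_l]; rfl
  map_smul' r a := by rw [smul_l, smul_l]; rfl

/-- pairing with one vector, on the left -/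
def pl (y : Vx N) : Vx N →ₗ[ℂ] ℂ where
  toFun w := dp w y
  map_add' a b := add_l a b y
  map_smul' r a := smul_l r a y

/-- elements of the kernel of a surjective map to `ℂ × ℂ` -/
theorem ker_family {W : Type} [AddCommGroup W] [Module ℂ W] [FiniteDimensional ℂ W] (r : ℕ)
    (hr : Module.finrank ℂ W = r) (φ : W →ₗ[ℂ] ℂ × ℂ) (hφ : Function.Surjective φ) :
    2 ≤ r ∧ ∃ k : Fin (r - 2) → W, (∀ i, φ (k i) = 0) ∧
      ∀ ψ : W →ₗ[ℂ] ℂ, (∀ i, ψ (k i) = 0) → ∀ w, φ w = 0 → ψ w = 0 := by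
  have hrn := LinearMap.finrank_range_add_finrank_ker φ
  rw [LinearMap.range_eq_top.mpr hφ, finrank_top, Module.finrank_prod, Module.finrank_self, hr]
    at hrn
  have hker : Module.finrank ℂ (LinearMap.ker φ) = r - 2 := by omega
  refine ⟨by omega, ?_⟩
  let bs : Module.Basis (Fin (r - 2)) ℂ (LinearMap.ker φ) := Module.finBasisOfFinrankEq ℂ _ hker
  refine ⟨fun i => (bs i : W), fun i => (bs i).2, fun ψ hψ w hw => ?_⟩
  have h0 : ψ.comp (LinearMap.ker φ).subtype = 0 := bs.ext fun i => hψ i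
  have h1 : (ψ.comp (LinearMap.ker φ).subtype) ⟨w, hw⟩ = 0 := by rw [h0]; rfl
  exact h1

end LQAux

open LQAux

theorem tLQ : S_LQ := by
  intro N r B hB hr q hq hqq
  -- the vector `q'`
  obtain ⟨i, hi⟩ : ∃ i, (B q) i ≠ 0 := by
    by_contra hcon
    exact hq (funext fun i => by
      by_contra h
      exact hcon ⟨i, h⟩)
  obtain ⟨q₁, hq₁⟩ : ∃ q₁ : Vx N, dp (B q) q₁ = 1 :=
    ⟨((B q) i)⁻¹ • Pi.single i 1, by rw [smul_r, single_r, inv_mul_cancel₀ hi]⟩
  obtain ⟨q', h1, h2⟩ : ∃ q' : Vx N, dp (B q) q' = 1 ∧ dp (B q') q' = 0 := by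
    refine ⟨q₁ - (dp (B q₁) q₁ / 2) • q, ?_, ?_⟩
    · rw [sub_r, smul_r, hqq, hq₁]
      ring
    · have e : dp (B q₁) q = 1 := by rw [hB, hq₁]
      rw [map_sub, map_smul, sub_l, smul_l, sub_r, smul_r, sub_r, smul_r, hqq, hq₁, e]
      ring
  have h1' : dp (B q') q = 1 := by rw [hB, h1]
  -- the pairing on the range
  let φ : LinearMap.range B →ₗ[ℂ] ℂ × ℂ := (ph q q').comp (LinearMap.range B).subtype
  have hφ : ∀ w : LinearMap.range B, φ w = (dp (w : Vx N) q, dp (w : Vx N) q') := fun _ => rfl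
  have hsurj : Function.Surjective φ := by
    rintro ⟨a, b⟩
    refine ⟨a • ⟨B q', LinearMap.mem_range_self B q'⟩ + b • ⟨B q, LinearMap.mem_range_self B q⟩, ?_⟩
    rw [map_add, map_smul, map_smul, hφ, hφ]
    simp only [h1', h2, hqq, h1]
    ext
    · simp
    · simp
  obtain ⟨h2r, k, hk1, hk2⟩ := ker_family r hr φ hsurj
  refine ⟨h2r, ?_⟩
  have hp : ∀ i, ∃ p : Vx N, B p = ((k i : LinearMap.range B) : Vx N) := fun i => (k i).2
  choose p hp using hp
  refine ⟨p, q', fun i => ?_, h1', fun y hy => ?_⟩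
  · have hk := hk1 i
    rw [hφ] at hk
    rw [hp i]
    exact (Prod.mk_eq_zero.mp hk).1
  · -- all elements of the kernel pair to zero with `y`
    have hK : ∀ w : LinearMap.range B, φ w = 0 → dp (w : Vx N) y = 0 := fun w hw =>
      hk2 ((pl y).comp (LinearMap.range B).subtype) (fun i => by
        change dp ((k i : LinearMap.range B) : Vx N) y = 0
        rw [← hp i]
        exact hy i) w hw
    refine ext_dp fun v => ?_
    set v' : Vx N := v - dp (B v) q' • q - dp (B v) q • q' with hv'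
    have e1 : dp (B v') q = 0 := by
      rw [hv', map_sub, map_sub, map_smul, map_smul, sub_l, sub_l, smul_l, smul_l, hqq, h1']
      ring
    have e2 : dp (B v') q' = 0 := by
      rw [hv', map_sub, map_sub, map_smul, map_smul, sub_l, sub_l, smul_l, smul_l, h1, h2]
      ring
    have hw : φ ⟨B v', LinearMap.mem_range_self B v'⟩ = 0 := by
      rw [hφ]
      exact Prod.mk_eq_zero.mpr ⟨e1, e2⟩
    have e3 : dp (B v') y = 0 := hK ⟨B v', LinearMap.mem_range_self B v'⟩ hw
    rw [hv', map_sub, map_sub, map_smul, map_smul, sub_l, sub_l, smul_l, smul_l] at e3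
    rw [add_l, smul_l, smul_l, hB y v, hB q v, hB q' v]
    linear_combination e3

end Pool.Agent.Lib.MP_776403_ag.SD.E2
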