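import Pool.Agent.Lib.MP_776403_ag.SD.E2.Spec
import Pool.Agent.Lib.MP_776403_ag.SD.LI.TS
import Pool.Agent.Lib.MP_776403_ag.SD.Q1.Kr
import Pool.Agent.Lib.MP_776403_ag.SD.Mono
import Pool.Agent.Lib.MP_776403_ag.SD.U.Zak

/-!
# Tangent spaces at general points are not contained in `A + ℂ y`
-/

set_option autoImplicit false

open MvPolynomial

noncomputable section

namespace Pool.Agent.Lib.MP_776403_ag.SD.E2

open LI LI.TSAux

namespace NonCAux

variable {N : ℕ}

theorem enlarge (A : Submodule ℂ (Vx N)) (k : ℕ) (h1 : Module.finrank ℂ A ≤ k) (h2 : k ≤ N + 1) :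
    ∃ A' : Submodule ℂ (Vx N), A ≤ A' ∧ Module.finrank ℂ A' = k := by
  induction hn : k - Module.finrank ℂ A generalizing A with
  | zero => exact ⟨A, le_rfl, by omega⟩
  | succ n ih =>
    have hlt : A < ⊤ := by
      refine lt_top_iff_ne_top.2 fun h => ?_
      rw [h, finrank_top, Module.finrank_fin_fun] at h1 hn
      omega
    obtain ⟨v, -, hv⟩ := SetLike.exists_of_lt hlt
    have h3 : Module.finrank ℂ A < Module.finrank ℂ (A ⊔ Submodule.span ℂ {v} : Submodule ℂ (Vx N)) := by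
      refine Submodule.finrank_lt_finrank_of_lt (lt_of_le_of_ne le_sup_left fun h => hv ?_)
      rw [h]
      exact Submodule.mem_sup_right (Submodule.mem_span_singleton_self v)
    have h4 : Module.finrank ℂ (A ⊔ Submodule.span ℂ {v} : Submodule ℂ (Vx N)) ≤
        Module.finrank ℂ A + 1 :=
      (Submodule.finrank_add_le_finrank_add_finrank A _).trans
        (Nat.add_le_add_left (finrank_span_singleton
          (fun h => hv (by rw [h]; exact A.zero_mem) : v ≠ 0)).le _)
    obtain ⟨A', hA', hf⟩ := ih (A ⊔ Submodule.span ℂ {v}) (by omega) (by omega)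
    exact ⟨A', le_sup_left.trans hA', hf⟩

theorem dbl (B : Submodule ℂ (Vx N)) {y : Vx N} (h : ∀ ξ : Vx N, (∀ b ∈ B, dp ξ b = 0) → dp ξ y = 0) :
    y ∈ B := by
  have h1 : y ∈ (bd N).orthogonal ((bd N).orthogonal B) := by
    rw [mem_orth]
    intro ξ hξ
    refine h ξ fun b hb => ?_
    rw [dp_comm]
    exact (mem_orth.1 hξ) b hb
  rwa [LinearMap.BilinForm.orthogonal_orthogonal bd_nd bd_refl] at h1

theorem ev (a y : Vx N) : eval y (lf a) = dp a y := by
  unfold lf dp
  rw [map_sum]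
  exact Finset.sum_congr rfl fun i _ => by rw [map_mul, eval_C, eval_X]

theorem evs (a y : Vx N) (w : Fin (N + 1) → Sx N) :
    eval y (∑ i, C (a i) * w i) = dp a (fun i => eval y (w i)) := by
  unfold dp
  rw [map_sum]
  exact Finset.sum_congr rfl fun i _ => by rw [map_mul, eval_C]

theorem hom1 (a : Vx N) : (lf a).IsHomogeneous 1 := by
  unfold lf
  refine IsHomogeneous.sum _ _ _ fun i _ => ?_
  simpa using (isHomogeneous_C (Fin (N + 1)) (a i)).mul (isHomogeneous_X ℂ i)

theorem lf_ne {a : Vx N} (ha : a ≠ 0) : lf a ≠ 0 := by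
  intro h
  apply ha
  funext i
  have h1 := ev a (Pi.single i 1)
  rw [h, map_zero, dp_single] at h1
  exact h1.symm

/-- values of tangent fields are tangent -/
theorem tf_ts {I : Ideal (Sx N)} {w : Fin (N + 1) → Sx N} (hw : w ∈ TF I) {z : Vx N}
    (hz : z ∈ zer I) : (fun i => eval z (w i)) ∈ TS I z := by
  intro F hF
  have h1 := hz _ (hw F hF)
  rw [map_sum] at h1
  rw [← h1]
  unfold dp grad
  exact Finset.sum_congr rfl fun i _ => by rw [map_mul]

theorem sub_dp (a a' y : Vx N) : dp (a - a') y = dp a y - dp a' y := by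
  rw [sub_eq_add_neg, add_dp]
  have h : -a' = (-1 : ℂ) • a' := by simp
  rw [h, smul_dp]
  ring

end NonCAux

open NonCAux

theorem tNonC (hTS : S_TS) (hCl : S_ClC) (hKr : U.S_KrR) (hZ : U.S_Zak) (hN : S_Null) :
    S_NonC := by
  intro N c I hNc hI hh hnd hS A₀ hA₀
  obtain ⟨A, hAA, hA⟩ := enlarge A₀ (2 * c) hA₀ (by omega)
  by_contra hcon
  push Not at hcon
  have h0 : ∀ g : Sx N, g ∉ I → ∃ y ∈ zer I, eval y g ≠ 0 ∧ TS I y ≤ A ⊔ Submodule.span ℂ {y} := by
    intro g hg
    obtain ⟨y, hy, hyg, hle⟩ := hcon g hg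
    exact ⟨y, hy, hyg, hle.trans (sup_le_sup_right hAA _)⟩
  -- (1) the claim for all points outside `A`
  have h1 : ∀ y ∈ zer I, y ∉ A → TS I y ≤ A ⊔ Submodule.span ℂ {y} := by
    intro y hy hyA τ hτ
    refine dbl _ fun ξ hξ => ?_
    by_contra hne
    have hy0 : y ≠ 0 := fun h => hyA (by rw [h]; exact A.zero_mem)
    obtain ⟨α, hα, hαy⟩ : ∃ α : Vx N, (∀ b ∈ A, dp α b = 0) ∧ dp α y ≠ 0 := by
      by_contra hno
      push Not at hno
      exact hyA (dbl A fun ξ hξ => hno ξ hξ)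
    obtain ⟨w, hw, hwy⟩ := (hTS N c I hI hh hS y hy hy0).2.2.1 τ hτ
    have hwy' : (fun i => eval y (w i)) = τ := funext hwy
    have hξA : ∀ b ∈ A, dp ξ b = 0 := fun b hb => hξ b (Submodule.mem_sup_left hb)
    have hξy : dp ξ y = 0 := hξ y (Submodule.mem_sup_right (Submodule.mem_span_singleton_self y))
    set g : Sx N := lf α * (∑ i, C (ξ i) * w i) - lf ξ * (∑ i, C (α i) * w i) with hg
    have hge : ∀ z : Vx N, eval z g = dp α z * dp ξ (fun i => eval z (w i)) -
        dp ξ z * dp α (fun i => eval z (w i)) := by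
      intro z
      rw [hg, map_sub, map_mul, map_mul, ev, ev, evs, evs]
    have hgI : g ∉ I := by
      intro h
      have h2 := hy g h
      rw [hge, hwy', hξy, zero_mul, sub_zero] at h2
      exact (mul_ne_zero hαy hne) h2
    obtain ⟨z, hz, hzg, hle⟩ := h0 g hgI
    apply hzg
    rw [hge]
    have h2 := hle (tf_ts hw hz)
    have h3 : ∀ b ∈ A ⊔ Submodule.span ℂ {z}, dp (dp α z • ξ - dp ξ z • α) b = 0 := by
      intro b hb
      obtain ⟨b1, hb1, b2, hb2, rfl⟩ := Submodule.mem_sup.1 hb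
      obtain ⟨r, rfl⟩ := Submodule.mem_span_singleton.1 hb2
      rw [sub_dp, smul_dp, smul_dp, dp_add, dp_add, dp_smul, dp_smul, hξA b1 hb1, hα b1 hb1]
      ring
    have h4 := h3 _ h2
    rw [sub_dp, smul_dp, smul_dp] at h4
    exact h4
  -- (2) a point outside `A`
  have hfo : Module.finrank ℂ ((bd N).orthogonal A) = N + 1 - 2 * c := by
    have h := LinearMap.BilinForm.finrank_orthogonal bd_nd A
    rw [hA, Module.finrank_fin_fun] at h
    exact h
  obtain ⟨a, haA, ha0⟩ : ∃ a : Vx N, (∀ b ∈ A, dp a b = 0) ∧ a ≠ 0 := by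
    have h2 : 0 < Module.finrank ℂ ((bd N).orthogonal A) := by omega
    have : Nontrivial ((bd N).orthogonal A) := Module.finrank_pos_iff.1 h2
    obtain ⟨a, ha⟩ := exists_ne (0 : (bd N).orthogonal A)
    refine ⟨a.1, fun b hb => ?_, fun h => ha (Subtype.ext h)⟩
    rw [dp_comm]
    exact (mem_orth.1 a.2) b hb
  obtain ⟨p, hp, hpa⟩ : ∃ p ∈ zer I, dp a p ≠ 0 := by
    by_contra hno
    push Not at hno
    have h2 : lf a ∈ I := (hN N I hI hh).1 _ fun z hz => by rw [ev]; exact hno z hz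
    exact lf_ne ha0 (hnd _ h2 (hom1 a))
  have hpA : p ∉ A := fun h => hpa (haA p h)
  have hp0 : p ≠ 0 := fun h => hpA (by rw [h]; exact A.zero_mem)
  set B : Submodule ℂ (Vx N) := A ⊔ Submodule.span ℂ {p} with hB
  have hpB : p ∈ B := Submodule.mem_sup_right (Submodule.mem_span_singleton_self p)
  have hfB : Module.finrank ℂ B = 2 * c + 1 := by
    have h3 : Module.finrank ℂ A < Module.finrank ℂ B := by
      refine Submodule.finrank_lt_finrank_of_lt (lt_of_le_of_ne le_sup_left fun h => hpA ?_)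
      rw [h]
      exact hpB
    have h4 : Module.finrank ℂ B ≤ Module.finrank ℂ A + 1 :=
      (Submodule.finrank_add_le_finrank_add_finrank A _).trans
        (Nat.add_le_add_left (finrank_span_singleton hp0).le _)
    omega
  have hfoB : Module.finrank ℂ ((bd N).orthogonal B) = 3 := by
    have h := LinearMap.BilinForm.finrank_orthogonal bd_nd B
    rw [hfB, Module.finrank_fin_fun] at h
    omega
  let bs := Module.finBasisOfFinrankEq ℂ ((bd N).orthogonal B) hfoB
  have hbs : ∀ i, ∀ b ∈ B, dp (bs i : Vx N) b = 0 := fun i b hb => by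
    rw [dp_comm]
    exact (mem_orth.1 (bs i).2) b hb
  obtain ⟨P, hP, hPh, hIP, hgP, hpP, hdim⟩ := hKr N (N + 1 - c) I hI hh
    (Q1.dimGe_smooth c I hh hS ⟨p, hp, hp0⟩) p hp 3 (fun i => lf (bs i : Vx N))
    (fun i => ⟨1, hom1 _⟩) (fun i => by rw [ev]; exact hbs i p hpB)
  have hzB : ∀ y ∈ zer P, y ∈ B := by
    intro y hy
    refine dbl B fun ξ hξ => ?_
    have h2 : ξ ∈ (bd N).orthogonal B := by
      rw [mem_orth]
      intro u hu
      rw [dp_comm]
      exact hξ u hu
    have h3 := bs.sum_repr ⟨ξ, h2⟩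
    have h4 : ξ = ∑ i, (bs.repr ⟨ξ, h2⟩ i) • (bs i : Vx N) := by
      have h5 := congrArg Subtype.val h3
      rw [Submodule.coe_sum] at h5
      exact h5.symm
    rw [h4, sum_dp]
    refine Finset.sum_eq_zero fun i _ => ?_
    rw [smul_dp, ← ev, hy _ (hgP i), mul_zero]
  have hη : lf a ∉ P := fun h => hpa (by rw [← ev]; exact hpP _ h)
  have hzI : ∀ y ∈ zer P, y ∈ zer I := fun y hy F hF => hy F (hIP hF)
  have hb0 : (bs 0 : Vx N) ≠ 0 := fun h => bs.ne_zero 0 (Subtype.ext h)
  have h5 := hCl N c I hI hh hS P hP hPh hIP (lf a) hη (bs 0 : Vx N) (by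
    intro y hy hy0 hya τ hτ
    rw [ev] at hya
    have hyA : y ∉ A := fun h => hya (haA y h)
    refine hbs 0 τ ?_
    have h6 := h1 y (hzI y hy) hyA hτ
    refine (sup_le le_sup_left ?_ : A ⊔ Submodule.span ℂ {y} ≤ B) h6
    rw [Submodule.span_le, Set.singleton_subset_iff]
    exact hzB y hy)
  exact hZ N c I hI hh hnd hS P hP hPh hIP (bs 0 : Vx N) hb0 h5
    (tMono _ P _ (c + 1) (by omega) hdim)

end Pool.Agent.Lib.MP_776403_ag.SD.E2
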