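import Pool.Agent.Lib.MP_776403_ag.SD.E2.Spec

/-!
# Case `deg X = c + 2`, `n = c + 3`: general points (Pts)
-/

set_option autoImplicit false

open MvPolynomial

noncomputable section

namespace Pool.Agent.Lib.MP_776403_ag.SD.E2

open LI

namespace PtsAux

variable {N k : ℕ}

/-- The `z l`, `l ∈ A`, are independent modulo the tangent space at `y`. -/
def QA (I : Ideal (Sx N)) (z : Fin k → Vx N) (A : Finset (Fin k)) (y : Vx N) : Prop :=
  ∀ γ : Fin k → ℂ, (∀ l, l ∉ A → γ l = 0) → ∑ l, γ l • z l ∈ TS I y → γ = 0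

/-- The family of the `z l`, `l ∈ A`. -/
def fam (z : Fin k → Vx N) (A : Finset (Fin k)) : A → Vx N := fun l => z l

/-- Extension by zero. -/
def ez (A : Finset (Fin k)) (a : A → ℂ) (l : Fin k) : ℂ := if h : l ∈ A then a ⟨l, h⟩ else 0

theorem sum_ez (z : Fin k → Vx N) (A : Finset (Fin k)) (a : A → ℂ) :
    ∑ l : A, a l • z l = ∑ l, ez A a l • z l := by
  have h1 : ∑ l, ez A a l • z l = ∑ l ∈ A, ez A a l • z l := by
    refine (Finset.sum_subset (Finset.subset_univ A) fun l _ hl => ?_).symm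
    simp [ez, hl]
  rw [h1, ← Finset.sum_coe_sort A fun l => ez A a l • z l]
  refine Finset.sum_congr rfl fun l _ => ?_
  simp [ez]

theorem trv_of {I : Ideal (Sx N)} {y : Vx N} {z : Fin k → Vx N} {A : Finset (Fin k)}
    (h : QA I z A y) : Trv I (fam z A) y := by
  intro a ha
  have ha' : ∑ l, ez A a l • z l ∈ TS I y := by
    rw [← sum_ez]
    exact ha
  have h3 := h _ (fun l hl => by simp [ez, hl]) ha'
  funext l
  have h4 := congrFun h3 l
  simpa [ez] using h4

theorem of_trv {I : Ideal (Sx N)} {y : Vx N} {z : Fin k → Vx N} {A : Finset (Fin k)}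
    (h : Trv I (fam z A) y) : QA I z A y := by
  intro γ hγ hm
  have e : ez A (fun l : A => γ l) = γ := by
    funext l
    by_cases hl : l ∈ A
    · simp [ez, hl]
    · simp [ez, hl, hγ l hl]
  have h1 := h (fun l : A => γ l) (by
    show ∑ l : A, (fun l : A => γ l) l • z l ∈ TS I y
    rw [sum_ez, e]
    exact hm)
  funext l
  by_cases hl : l ∈ A
  · exact congrFun h1 ⟨l, hl⟩
  · exact hγ l hl

theorem of_opt {I : Ideal (Sx N)} {y w' : Vx N} {z : Fin k → Vx N} {A : Finset (Fin k)}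
    {m : Fin k} (hm : m ∉ A)
    (h : Trv I (fun o : Option A => o.elim w' (fam z A)) y) :
    QA I (Function.update z m w') (insert m A) y := by
  intro γ hγ hmem
  have e1 : ∑ l, γ l • Function.update z m w' l =
      γ m • w' + ∑ l ∈ Finset.univ.erase m, γ l • z l := by
    rw [← Finset.add_sum_erase _ _ (Finset.mem_univ m), Function.update_self]
    congr 1
    refine Finset.sum_congr rfl fun l hl => ?_
    rw [Function.update_of_ne (Finset.ne_of_mem_erase hl)]
  have e2 : ∑ l, ez A (fun l : A => γ l) l • z l = ∑ l ∈ Finset.univ.erase m, γ l • z l := by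
    rw [← Finset.add_sum_erase _ _ (Finset.mem_univ m)]
    have h0 : ez A (fun l : A => γ l) m = 0 := by simp [ez, hm]
    rw [h0, zero_smul, zero_add]
    refine Finset.sum_congr rfl fun l hl => ?_
    by_cases hA : l ∈ A
    · simp [ez, hA]
    · have h2 : γ l = 0 := hγ l (by
        rw [Finset.mem_insert]
        rintro (h3 | h3)
        · exact Finset.ne_of_mem_erase hl h3
        · exact hA h3)
      simp [ez, hA, h2]
  have h1 := h (fun o => o.elim (γ m) fun l : A => γ l) (by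
    rw [Fintype.sum_option]
    simp only [Option.elim]
    show γ m • w' + ∑ l : A, (fun l : A => γ l) l • z l ∈ TS I y
    rw [sum_ez, e2, ← e1]
    exact hmem)
  funext l
  by_cases hlm : l = m
  · subst hlm
    exact congrFun h1 none
  · by_cases hl : l ∈ A
    · exact congrFun h1 (some ⟨l, hl⟩)
    · exact hγ l (by simp [hlm, hl])

/-- Only the vectors in `A` count. -/
theorem QA.congr {I : Ideal (Sx N)} {y : Vx N} {z z' : Fin k → Vx N} {A : Finset (Fin k)}
    (h : QA I z A y) (hz : ∀ l ∈ A, z' l = z l) : QA I z' A y := by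
  intro γ hγ hm
  refine h γ hγ ?_
  have e : ∑ l, γ l • z l = ∑ l, γ l • z' l := by
    refine Finset.sum_congr rfl fun l _ => ?_
    by_cases hl : l ∈ A
    · rw [hz l hl]
    · rw [hγ l hl, zero_smul, zero_smul]
  rw [e]
  exact hm

theorem ext' (hExt : S_Ext) {I : Ideal (Sx N)} {c : ℕ} (hP : I.IsPrime) (hH : IsHom I)
    (hS : Smooth I c) (hnd : ∀ F ∈ I, F.IsHomogeneous 1 → F = 0) {y : Vx N}
    {z : Fin k → Vx N} {A : Finset (Fin k)} (hy : y ∈ zer I) (hy0 : y ≠ 0)
    (h : QA I z A y) (hc : A.card + 1 ≤ c) :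
    ∃ g : Sx N, g ∉ I ∧ ∀ w', eval w' g ≠ 0 → ∀ m, m ∉ A →
      QA I (Function.update z m w') (insert m A) y := by
  obtain ⟨a, _, h1, h2⟩ := hExt N c I hP hH hS hnd A (fam z A) y hy hy0 (trv_of h)
    (by rwa [Fintype.card_coe])
  refine ⟨lf a, h1, fun w' hw m hm => of_opt hm (h2 w' ?_)⟩
  have e : eval w' (lf a) = dp a w' := by
    simp [lf, dp]
  rwa [e] at hw

/-- The points `z l`, `l ∈ S`, are points of `X` in general position, and there is one more point. -/
def GP (I : Ideal (Sx N)) (z : Fin k → Vx N) (S : Finset (Fin k)) : Prop :=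
  (∀ i ∈ S, z i ∈ zer I ∧ z i ≠ 0 ∧ QA I z (S.erase i) (z i)) ∧ ∃ z' ∈ zer I, z' ≠ 0 ∧ QA I z S z'

theorem step (hOpn : S_Opn) (hExt : S_Ext) (hNull : S_Null) {I : Ideal (Sx N)} {c : ℕ}
    (hP : I.IsPrime) (hH : IsHom I) (hS : Smooth I c) (hnd : ∀ F ∈ I, F.IsHomogeneous 1 → F = 0)
    {z : Fin k → Vx N} {S : Finset (Fin k)} (hG : GP I z S) (hc : S.card + 1 ≤ c) {m : Fin k}
    (hm : m ∉ S) {gs : Sx N} (hgs : gs ∉ I) :
    ∃ w' : Vx N, eval w' gs ≠ 0 ∧ GP I (Function.update z m w') (insert m S) ∧ w' ∈ zer I := by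
  classical
  obtain ⟨hA, z', hz', hz0, hQ⟩ := hG
  obtain ⟨l, hl0⟩ : ∃ l, z' l ≠ 0 := by
    by_contra hc
    push Not at hc
    exact hz0 (funext hc)
  have hXl : (X l : Sx N) ∉ I := fun h => hl0 (by
    have := hz' _ h
    simpa using this)
  -- open condition for the new point
  obtain ⟨g₀, hg₀, hg₀'⟩ := hOpn N c I hS S (fam z S) z' hz' hz0 (trv_of hQ)
  -- conditions at the old points
  have hi : ∀ i : S, ∃ g : Sx N, g ∉ I ∧ ∀ w', eval w' g ≠ 0 →
      QA I (Function.update z m w') (insert m (S.erase i)) (z i) := by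
    intro i
    obtain ⟨h1, h2, h3⟩ := hA i i.2
    obtain ⟨g, hg, hg'⟩ := ext' hExt hP hH hS hnd h1 h2 h3 (by
      rw [Finset.card_erase_of_mem i.2]
      omega)
    exact ⟨g, hg, fun w' hw => hg' w' hw m fun h5 => hm (Finset.mem_of_mem_erase h5)⟩
  choose g hg hg' using hi
  -- condition at `z'`
  obtain ⟨g₁, hg₁, hg₁'⟩ := ext' hExt hP hH hS hnd hz' hz0 hQ hc
  have hprod : X l * (g₀ * (g₁ * (gs * ∏ i, g i))) ∉ I := by
    intro h
    rcases hP.mem_or_mem h with h | h
    · exact hXl h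
    rcases hP.mem_or_mem h with h | h
    · exact hg₀ h
    rcases hP.mem_or_mem h with h | h
    · exact hg₁ h
    rcases hP.mem_or_mem h with h | h
    · exact hgs h
    obtain ⟨i, _, hi⟩ := (hP.prod_mem_iff).1 h
    exact hg i hi
  obtain ⟨w', hw', hwne⟩ : ∃ w' ∈ zer I, eval w' (X l * (g₀ * (g₁ * (gs * ∏ i, g i)))) ≠ 0 := by
    by_contra hc
    push Not at hc
    exact hprod ((hNull N I hP hH).1 _ hc)
  rw [map_mul, map_mul, map_mul, map_mul, map_prod, eval_X] at hwne
  have n1 : w' l ≠ 0 := left_ne_zero_of_mul hwne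
  have r1 := right_ne_zero_of_mul hwne
  have n2 : eval w' g₀ ≠ 0 := left_ne_zero_of_mul r1
  have r2 := right_ne_zero_of_mul r1
  have n3 : eval w' g₁ ≠ 0 := left_ne_zero_of_mul r2
  have r3 := right_ne_zero_of_mul r2
  have n5 : eval w' gs ≠ 0 := left_ne_zero_of_mul r3
  have n4 : ∀ i, eval w' (g i) ≠ 0 := fun i => Finset.prod_ne_zero_iff.1
    (right_ne_zero_of_mul r3) i (Finset.mem_univ i)
  have hw0 : w' ≠ 0 := fun h => n1 (by rw [h]; rfl)
  refine ⟨w', n5, ⟨fun i hi => ?_, z', hz', hz0, hg₁' w' n3 m hm⟩, hw'⟩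
  by_cases him : i = m
  · subst him
    rw [Function.update_self, Finset.erase_insert hm]
    refine ⟨hw', hw0, (of_trv (hg₀' w' hw' n2)).congr fun l' hl' => ?_⟩
    exact Function.update_of_ne (fun h : l' = i => hm (h ▸ hl')) _ _
  · have hiS : i ∈ S := Finset.mem_of_mem_insert_of_ne hi him
    rw [Function.update_of_ne him]
    refine ⟨(hA i hiS).1, (hA i hiS).2.1, ?_⟩
    have e : (insert m S).erase i = insert m (S.erase i) :=
      Finset.erase_insert_of_ne (Ne.symm him)
    rw [e]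
    exact hg' ⟨i, hiS⟩ w' (n4 ⟨i, hiS⟩)

theorem main (hOpn : S_Opn) (hExt : S_Ext) (hNull : S_Null) {I : Ideal (Sx N)} {c : ℕ}
    (hP : I.IsPrime) (hH : IsHom I) (hS : Smooth I c) (hnd : ∀ F ∈ I, F.IsHomogeneous 1 → F = 0)
    (hk : k ≤ c) (S : Finset (Fin k)) : ∃ z : Fin k → Vx N, GP I z S := by
  classical
  have h1I : (1 : Sx N) ∉ I := fun h => hP.ne_top ((Ideal.eq_top_iff_one I).2 h)
  induction S using Finset.induction_on with
  | empty =>
    obtain ⟨z₀, h1, h2⟩ : ∃ z₀ ∈ zer I, z₀ ≠ 0 := by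
      by_contra hc
      push Not at hc
      have h3 : (X 0 : Sx N) ∈ I := (hNull N I hP hH).1 _ fun y hy => by
        rw [hc y hy]
        simp
      exact X_ne_zero (R := ℂ) (0 : Fin (N + 1)) (hnd _ h3 (isHomogeneous_X ℂ 0))
    refine ⟨fun _ => 0, fun i hi => absurd hi (Finset.notMem_empty i), z₀, h1, h2, fun γ hγ _ => ?_⟩
    exact funext fun l => hγ l (Finset.notMem_empty l)
  | insert m S hm ih =>
    obtain ⟨z, hz⟩ := ih
    have hcard : S.card + 1 ≤ k := by
      have := Finset.card_le_univ (insert m S)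
      rwa [Finset.card_insert_of_notMem hm, Fintype.card_fin] at this
    obtain ⟨w', _, h2, _⟩ := step hOpn hExt hNull hP hH hS hnd hz (hcard.trans hk) hm h1I
    exact ⟨_, h2⟩

end PtsAux

open PtsAux in
theorem tPts : S_TS → S_Opn → S_Ext → S_Null → S_NonC → S_Pts := by
  intro hTS hOpn hExt hNull hNonC N c I hc4 hN hP hH hnd hS
  classical
  -- two indices
  let j₀ : Fin (c - 2) := ⟨0, by omega⟩
  let m₀ : Fin (c - 2) := ⟨1, by omega⟩
  have hjm : j₀ ≠ m₀ := by
    intro h
    have := congrArg Fin.val h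
    simp [j₀, m₀] at this
  obtain ⟨z, hz⟩ := PtsAux.main hOpn hExt hNull hP hH hS hnd (Nat.sub_le c 2)
    (Finset.univ.erase m₀ : Finset (Fin (c - 2)))
  have hj₀ : j₀ ∈ (Finset.univ.erase m₀ : Finset (Fin (c - 2))) :=
    Finset.mem_erase.2 ⟨hjm, Finset.mem_univ _⟩
  obtain ⟨hz1, hz2, _⟩ := hz.1 j₀ hj₀
  obtain ⟨hT1, hT2, -⟩ := hTS N c I hP hH hS (z j₀) hz1 hz2
  set E : Submodule ℂ (Vx N) := Submodule.span ℂ
    (z '' (((Finset.univ.erase m₀).erase j₀ : Finset (Fin (c - 2))) : Set (Fin (c - 2)))) with hE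
  have hEr : Module.finrank ℂ E ≤ c - 4 := by
    have h1 : Module.finrank ℂ E ≤ ((((Finset.univ.erase m₀).erase j₀ :
        Finset (Fin (c - 2))).image z)).card := by
      rw [hE, ← Finset.coe_image]
      exact finrank_span_finset_le_card _
    refine h1.trans (Finset.card_image_le.trans ?_)
    rw [Finset.card_erase_of_mem hj₀, Finset.card_erase_of_mem (Finset.mem_univ _), Finset.card_univ,
      Fintype.card_fin]
    omega
  have hA : Module.finrank ℂ (TS I (z j₀) ⊔ E : Submodule ℂ (Vx N)) ≤ 2 * c := by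
    have h1 := Submodule.finrank_add_le_finrank_add_finrank (TS I (z j₀)) E
    omega
  obtain ⟨g, hg, hg'⟩ := hNonC N c I hN hP hH hnd hS _ hA
  have hcard : (Finset.univ.erase m₀ : Finset (Fin (c - 2))).card + 1 ≤ c := by
    rw [Finset.card_erase_of_mem (Finset.mem_univ _), Finset.card_univ, Fintype.card_fin]
    omega
  obtain ⟨w', hw1, hw2, hw3⟩ := step hOpn hExt hNull hP hH hS hnd hz hcard
    (Finset.notMem_erase m₀ _) hg
  rw [Finset.insert_erase (Finset.mem_univ m₀)] at hw2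
  obtain ⟨hx, -⟩ := hw2
  set x : Fin (c - 2) → Vx N := Function.update z m₀ w' with hxd
  refine ⟨x, fun i => ⟨(hx i (Finset.mem_univ i)).1, (hx i (Finset.mem_univ i)).2.1⟩,
    fun j γ hm => ?_, m₀, j₀, fun hle => ?_⟩
  · obtain ⟨h1, h2, h3⟩ := hx j (Finset.mem_univ j)
    have h4 : x j ∈ TS I (x j) := (hTS N c I hP hH hS (x j) h1 h2).2.1
    have e1 : ∑ l, (Function.update γ j 0) l • x l = ∑ l, γ l • x l - γ j • x j := by
      rw [← Finset.add_sum_erase _ _ (Finset.mem_univ j),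
        ← Finset.add_sum_erase Finset.univ (fun l => γ l • x l) (Finset.mem_univ j),
        Function.update_self, zero_smul, zero_add, add_sub_cancel_left]
      refine Finset.sum_congr rfl fun l hl => ?_
      rw [Function.update_of_ne (Finset.ne_of_mem_erase hl)]
    have h7 := h3 (Function.update γ j 0) (fun l hl => by
      have : l = j := by
        by_contra hc
        exact hl (Finset.mem_erase.2 ⟨hc, Finset.mem_univ l⟩)
      rw [this, Function.update_self]) (by
        rw [e1]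
        exact (TS I (x j)).sub_mem hm ((TS I (x j)).smul_mem _ h4))
    intro i hij
    have h8 := congrFun h7 i
    rwa [Function.update_of_ne hij] at h8
  · have e1 : x m₀ = w' := Function.update_self _ _ _
    have e2 : ∀ l, l ≠ m₀ → x l = z l := fun l hl => Function.update_of_ne hl _ _
    rw [e1, e2 j₀ hjm] at hle
    refine hg' w' hw3 hw1 (hle.trans (sup_le (le_sup_left.trans le_sup_left) ?_))
    rw [Submodule.span_le]
    rintro _ ⟨l, rfl⟩
    by_cases hl : l = m₀
    · rw [hl, e1]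
      exact Submodule.mem_sup_right (Submodule.mem_span_singleton_self w')
    · rw [e2 l hl]
      refine Submodule.mem_sup_left ?_
      by_cases hl' : l = j₀
      · rw [hl']
        exact Submodule.mem_sup_left hT2
      · refine Submodule.mem_sup_right (Submodule.subset_span ⟨l, ?_, rfl⟩)
        exact Finset.mem_coe.2 (Finset.mem_erase.2 ⟨hl', Finset.mem_erase.2 ⟨hl, Finset.mem_univ l⟩⟩)

end Pool.Agent.Lib.MP_776403_ag.SD.E2
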