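import Pool.Agent.Lib.MP_776403_ag.SD.E2.Spec
import Pool.Agent.Lib.MP_776403_ag.SD.LI.TS
import Pool.Agent.Lib.MP_776403_ag.SD.LI.Ext
import Pool.Agent.Lib.MP_776403_ag.SD.Q1.Kr
import Pool.Agent.Lib.MP_776403_ag.SD.Mono

/-!
# Case `deg X = c + 2`: ranks of the quadrics in `I` (helper97)
-/

set_option autoImplicit false

open MvPolynomial

noncomputable section

namespace Pool.Agent.Lib.MP_776403_ag.SD.E2

open LI

namespace Rk6Aux

open LI.TSAux LI.ExtAux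

variable {N : ℕ}

/-- a point of `X` which is not in the vertex -/
theorem exists_q (hHsf : S_Hsf) (hNull : S_Null) (I : Ideal (Sx N)) (hP : I.IsPrime) (hH : IsHom I)
    (hnd : ∀ F ∈ I, F.IsHomogeneous 1 → F = 0) (G : Sx N) (hG2 : G.IsHomogeneous 2) (hG0 : G ≠ 0) :
    ∃ q ∈ zer I, Hs G q ≠ 0 := by
  by_contra hcon
  push Not at hcon
  refine hG0 (((hHsf N).2.2.2 G hG2).2.2.2.2 (LinearMap.ext fun u => ?_))
  by_contra hu
  refine lf_ne hu (hnd _ ?_ (lf_hom _))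
  refine (hNull N I hP hH).1 _ fun z hz => ?_
  rw [eval_lf, (hHsf N).2.2.1 G u z, hcon z hz]
  simp [dp]

theorem main (hHsf : S_Hsf) (hClC : S_ClC) (hLQ : S_LQ) (hKr : U.S_KrR) (hZak : U.S_Zak) (hNull : S_Null)
    (c : ℕ) (I : Ideal (Sx N)) (hN : N = 2 * c + 3) (hP : I.IsPrime) (hH : IsHom I)
    (hnd : ∀ F ∈ I, F.IsHomogeneous 1 → F = 0) (hS : Smooth I c) (G : Sx N) (hG : G ∈ I)
    (hG2 : G.IsHomogeneous 2) (hG0 : G ≠ 0) : 6 ≤ Module.finrank ℂ (LinearMap.range (Hs G)) := by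
  by_contra hr
  push Not at hr
  have hsym := (hHsf N).2.2.1 G
  have hgr := ((hHsf N).2.2.2 G hG2).1
  have heu := ((hHsf N).2.2.2 G hG2).2.1
  obtain ⟨q, hq, hξ⟩ := exists_q hHsf hNull I hP hH hnd G hG2 hG0
  have hq0 : q ≠ 0 := fun h => hξ (by rw [h, map_zero])
  have hξq : dp (Hs G q) q = 0 := by
    rw [← heu q, hq G hG, mul_zero]
  obtain ⟨h2r, p, q', hp1, hq'1, hp2⟩ := hLQ N _ (Hs G) hsym rfl q hξ hξq
  have hdim := Q1.dimGe_smooth c I hH hS ⟨q, hq, hq0⟩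
  obtain ⟨P, hPp, hPh, hIP, hgP, hqP, hPd⟩ := hKr N (N + 1 - c) I hP hH hdim q hq
    (Module.finrank ℂ (LinearMap.range (Hs G)) - 2) (fun i => lf (Hs G (p i))) (fun i => ⟨1, lf_hom _⟩)
    (fun i => by rw [eval_lf]; exact hp1 i)
  have hPd' : DimGe P (c + 1) := tMono _ P _ (c + 1) (by omega) hPd
  -- the form `η`
  have hη : lf (Hs G q') ∉ P := fun h => by
    have h1 := hqP _ h
    rw [eval_lf, hq'1] at h1
    exact one_ne_zero h1
  have hy : ∀ y ∈ zer P, Hs G y = dp (Hs G q') y • Hs G q + dp (Hs G q) y • Hs G q' := fun y hyP =>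
    hp2 y fun i => by
      have h1 := hyP _ (hgP i)
      rwa [eval_lf] at h1
  have hmul : lf (Hs G q') * lf (Hs G q) ∈ P := by
    refine (hNull N P hPp hPh).1 _ fun y hyP => ?_
    rw [map_mul, eval_lf, eval_lf]
    have h1 := heu y
    rw [hyP G (hIP hG), mul_zero, hy y hyP, add_dp, smul_dp, smul_dp] at h1
    have h2 : 2 * (dp (Hs G q') y * dp (Hs G q) y) = 0 := by
      rw [h1]; ring
    exact (mul_eq_zero.1 h2).resolve_left two_ne_zero
  have hξP : lf (Hs G q) ∈ P := (hPp.mem_or_mem hmul).resolve_left hη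
  have hy' : ∀ y ∈ zer P, Hs G y = dp (Hs G q') y • Hs G q := fun y hyP => by
    have h1 := hyP _ hξP
    rw [eval_lf] at h1
    rw [hy y hyP, h1, zero_smul, add_zero]
  refine hZak N c I hP hH hnd hS P hPp hPh hIP (Hs G q) hξ ?_ hPd'
  refine hClC N c I hP hH hS P hPp hPh hIP (lf (Hs G q')) hη (Hs G q) fun y hyP hy0 hηy τ hτ => ?_
  have h1 : dp (grad G y) τ = 0 := hτ G hG
  rw [hgr y, hy' y hyP, smul_dp] at h1
  rw [eval_lf] at hηy
  exact (mul_eq_zero.1 h1).resolve_left hηy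

end Rk6Aux

/-- (Rk6) Ranks of quadrics. -/
theorem tRk6 (h1 : S_Hsf) (h2 : S_ClC) (h3 : S_LQ) (h4 : U.S_KrR) (h5 : U.S_Zak) (h6 : S_Null) : S_Rk6 := by
  intro N c I hN hP hH hnd hS G hG hG2 hG0
  have h := Rk6Aux.main h1 h2 h3 h4 h5 h6 c I hN hP hH hnd hS G hG hG2 hG0
  refine ⟨h, ?_⟩
  have h7 := LinearMap.finrank_range_add_finrank_ker (Hs G)
  rw [Module.finrank_fin_fun] at h7
  unfold Kq
  omega

end Pool.Agent.Lib.MP_776403_ag.SD.E2
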