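import Pool.Agent.Lib.MP_776403_ag.SD.E2.Spec
import Pool.Agent.Lib.MP_776403_ag.SD.Bas

/-!
# Case `deg X = c + 2`: a quadric of `I` singular at `x` vanishes on the tangent space at `x`
-/

set_option autoImplicit false

open MvPolynomial

noncomputable section

namespace Pool.Agent.Lib.MP_776403_ag.SD.E2

open LI

namespace TQAux

variable {N : ℕ}

theorem mem_pow {F : Sx N} {k : ℕ} (hF : F.IsHomogeneous k) (J : Ideal (Sx N))
    (g : Fin (N + 1) → Sx N) (hg : ∀ i, g i ∈ J) : aeval g F ∈ J ^ k := by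
  rw [aeval_def, eval₂_eq']
  refine Ideal.sum_mem _ fun d hd => Ideal.mul_mem_left _ _ ?_
  have h1 : ∑ i, d i = k := by
    have h2 := hF (mem_support_iff.1 hd)
    rw [Finsupp.weight_apply, Finsupp.sum_fintype _ _ (by simp)] at h2
    simpa using h2
  rw [← h1, ← Finset.prod_pow_eq_pow_sum]
  exact Ideal.prod_mem_prod fun i _ => Ideal.pow_mem_pow (hg i) _

theorem eval_lf' (a u : Vx N) : eval u (lf a) = dp a u := by
  simp only [lf, dp, map_sum, map_mul, eval_C, eval_X]

theorem dp_neg (a u : Vx N) : dp a (-u) = -dp a u := by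
  simp only [dp, Pi.neg_apply, mul_neg, Finset.sum_neg_distrib]

end TQAux

open TQAux in
theorem tTQ : S_Hsf → S_Ini → S_TQ := by
  intro hHsf hIni N c I hI hIh hS x hx hx0 G hG hG2 hdd
  obtain ⟨_, _, hsym, hq⟩ := hHsf N
  obtain ⟨_, _, hadd, hlf, _⟩ := hq G hG2
  have hz : ∀ u, dp (Hs G x) u = 0 := by
    intro u
    rw [← eval_lf', ← hlf, hdd, map_zero]
  have hGx : eval x G = 0 := hx G hG
  -- translation invariance
  have htr : aeval (fun i => (X i - C (x i) : Sx N)) G = G := by
    refine MvPolynomial.funext fun u => ?_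
    have e1 : eval u (aeval (fun i => (X i - C (x i) : Sx N)) G) = eval (u + -x) G := by
      rw [← coe_aeval_eq_eval, ← AlgHom.coe_toRingHom]
      have : ((aeval u : Sx N →ₐ[ℂ] ℂ).comp (aeval fun i => (X i - C (x i) : Sx N))) =
          aeval (u + -x) := by
        refine MvPolynomial.algHom_ext fun i => ?_
        rw [AlgHom.comp_apply, aeval_X, aeval_X, map_sub, aeval_X, aeval_C]
        simp [sub_eq_add_neg]
      exact DFunLike.congr_fun this G
    rw [e1, hadd, dp_neg, hsym, hz, neg_zero, add_zero]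
    have e2 : eval (-x) G = 0 := by
      have := eval_smul_form hG2 (-1) x
      rw [neg_one_smul] at this
      rw [this, hGx, mul_zero]
    rw [e2, add_zero]
  have hpt : G ∈ (ptI x) ^ 2 := by
    have h := mem_pow hG2 (ptI x) (fun i => (X i - C (x i) : Sx N)) (fun i => by
      change eval x (X i - C (x i)) = 0
      rw [map_sub, eval_X, eval_C, sub_self])
    rwa [htr] at h
  have key : ∀ τ ∈ TS I x, eval τ G = 0 := by
    intro τ hτ
    have h := hIni N c I hI hIh hS x hx hx0 2 G hG hpt τ hτ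
    rwa [lin_coeff_top hG2] at h
  intro τ hτ
  refine ⟨key τ hτ, fun τ' hτ' => ?_⟩
  have h := hadd τ τ'
  rw [key _ ((TS I x).add_mem hτ hτ'), key τ hτ, key τ' hτ'] at h
  simpa using h.symm

end Pool.Agent.Lib.MP_776403_ag.SD.E2
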