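import Pool.Agent.Lib.MP_776403_ag.SD.E2.C4
import Pool.Agent.Lib.MP_776403_ag.SD.E2.ClC
import Pool.Agent.Lib.MP_776403_ag.SD.E2.Cnt
import Pool.Agent.Lib.MP_776403_ag.SD.E2.Hsf
import Pool.Agent.Lib.MP_776403_ag.SD.E2.Kro
import Pool.Agent.Lib.MP_776403_ag.SD.E2.LQ
import Pool.Agent.Lib.MP_776403_ag.SD.E2.NonC
import Pool.Agent.Lib.MP_776403_ag.SD.E2.Pts
import Pool.Agent.Lib.MP_776403_ag.SD.E2.Rk6
import Pool.Agent.Lib.MP_776403_ag.SD.E2.TQ
import Pool.Agent.Lib.MP_776403_ag.SD.LI.Ini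
import Pool.Agent.Lib.MP_776403_ag.SD.LI.Opn
import Pool.Agent.Lib.MP_776403_ag.SD.P2.TS
import Pool.Agent.Lib.MP_776403_ag.SD.U.KrR
import Pool.Agent.Lib.MP_776403_ag.SD.U.Zak

/-!
# Case `deg X = c + 2`, `n = c + 3`: closed forms (helper28)
-/

set_option autoImplicit false

open MvPolynomial

noncomputable section

namespace Pool.Agent.Lib.MP_776403_ag.SD.E2

open LI

theorem mTS : S_TS := P2.tTS

theorem mKrR : U.S_KrR := U.tKrR

theorem mZak : U.S_Zak := U.tZak U.tKrR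

theorem mHsf : S_Hsf := tHsf

theorem mClC : S_ClC := tClC mTS

theorem mTQ : S_TQ := tTQ mHsf (tIni mTS)

theorem mLQ : S_LQ := tLQ

theorem mRk6 : S_Rk6 := tRk6 mHsf mClC mLQ mKrR mZak tNull

theorem mKro : S_Kro := tKro

theorem mNonC : S_NonC := tNonC mTS mClC mKrR mZak tNull

theorem mPts : S_Pts := tPts mTS (tOpn eCN) (tExt mTS) tNull mNonC

theorem mCnt : S_Cnt := tCnt mHsf

/-- The case `c ≥ 4` is impossible. -/
theorem mC4 : S_C4 := tC4 mTS mHsf mTQ mRk6 mKro mPts mCnt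

end Pool.Agent.Lib.MP_776403_ag.SD.E2
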