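import Pool.Agent.Lib.MP_776403_ag.SD.LI.Spec
import Pool.Agent.Lib.MP_776403_ag.SD.U.SpecC

/-!
# Case `deg X = c + 2`, `n = c + 3`: `c ≥ 4` is impossible (helper28, note 4803, parts (1)-(3))

`X ⊆ ℙ^N` smooth, nondegenerate, of codimension `c`, `N = 2 c + 3`, with at least `binom (c+1) 2 - 1`
quadrics in its ideal.  Then `c ≤ 3` (`S_C4`).

Method.  (1) Every quadric in `I`, not `0`, has rank `≥ 6` (`S_Rk6`, with Zak's bound `U.S_Zak`).  (2) A quadric in `I` which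
is singular at `x ∈ X` vanishes on the tangent space at `x` (`S_TQ`).  (3) For `c - 2` general points `x_j` there are two
independent quadrics `G_1, G_2` singular at all `x_j` (`S_Cnt`); they vanish on `T_j = TS I (x_j) + span (x_i)`, of dimension
`2 c + 1`, so all `a G_1 + b G_2` have rank exactly `6`, vertex `≤ T_j` and `T_j → Ann T_j = ℂ^3` is surjective.  `S_Kro`: the
vertices span `T_j`.  As they are contained in all `T_i`, the `T_j` are equal: contradiction to `S_Pts`.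

Statements with complete proofs in the docstrings; `S_Xyz` is proved in the file `SD/E2/Xyz.lean` (theorem `SD.E2.tXyz`, other
statements as hypotheses in the order in which they are named).
-/

set_option autoImplicit false

open MvPolynomial

noncomputable section

namespace Pool.Agent.Lib.MP_776403_ag.SD.E2

open LI

variable {N : ℕ}

/-- The matrix of the second derivatives (of a quadratic form) at `0`. -/
def HM (G : Sx N) : Matrix (Fin (N + 1)) (Fin (N + 1)) ℂ :=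
  Matrix.of fun i j => eval 0 (pderiv i (pderiv j G))

/-- The linear map `u ↦ grad G u` of a quadratic form `G`. -/
def Hs (G : Sx N) : Vx N →ₗ[ℂ] Vx N := (HM G).mulVecLin

/-- The vertex of a quadric. -/
def Kq (G : Sx N) : Submodule ℂ (Vx N) := LinearMap.ker (Hs G)

/-- The quadrics in `I`. -/
def I2 (I : Ideal (Sx N)) : Submodule ℂ (Sx N) where
  carrier := {G | G ∈ I ∧ G.IsHomogeneous 2}
  zero_mem' := ⟨I.zero_mem, isHomogeneous_zero _ _ _⟩
  add_mem' := fun h h' => ⟨I.add_mem h.1 h'.1, h.2.add h'.2⟩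
  smul_mem' := fun r G h => by
    refine ⟨?_, ?_⟩
    · rw [MvPolynomial.smul_eq_C_mul]
      exact I.mul_mem_left _ h.1
    · exact (homogeneousSubmodule (Fin (N + 1)) ℂ 2).smul_mem r h.2

/-- The quadrics in `I` which are singular at all points `x i`. -/
def I2x (I : Ideal (Sx N)) {k : ℕ} (x : Fin k → Vx N) : Submodule ℂ (Sx N) where
  carrier := {G | (G ∈ I ∧ G.IsHomogeneous 2) ∧ ∀ i, dd (x i) G = 0}
  zero_mem' := ⟨(I2 I).zero_mem, fun i => by simp [dd]⟩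
  add_mem' := fun h h' => ⟨(I2 I).add_mem h.1 h'.1, fun i => by
    have h1 := h.2 i
    have h2 := h'.2 i
    simp only [dd, map_add, mul_add, Finset.sum_add_distrib] at h1 h2 ⊢
    rw [h1, h2, add_zero]⟩
  smul_mem' := fun r G h => ⟨(I2 I).smul_mem r h.1, fun i => by
    have h1 := h.2 i
    simp only [dd, MvPolynomial.smul_eq_C_mul] at h1 ⊢
    simp only [Derivation.leibniz, pderiv_C, smul_eq_mul, mul_zero, add_zero]
    have e : ∑ j, C (x i j) * (C r * pderiv j G) = C r * ∑ j, C (x i j) * pderiv j G := by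
      rw [Finset.mul_sum]
      exact Finset.sum_congr rfl fun j _ => by ring
    rw [e, h1, mul_zero]⟩

/-- (Hsf) BASIC FACTS on quadratic forms.

PROOF.  Every clause about a fixed `G` is linear in `G`, so it is enough to check it for the products of two variables,
`G = X a * X b` (quadratic forms are sums of `C r * X a * X b`: `MvPolynomial.as_sum`, a monomial of degree `2`); or directly:
`pderiv j G` is a form of degree `1`, so it is `∑ i, C (coefficient) * X i` and `eval u (pderiv j G) = ∑_i eval 0 (pderiv i (pderiv j G)) u i`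
(Euler `IsHomogeneous.sum_X_mul_pderiv` for the form `pderiv j G` of degree `1`, whose derivatives are forms of degree `0`,
so constants: their value at `u` is their value at `0`); symmetry: `pderiv` commute (`MvPolynomial.pderiv_pderiv_comm` or
by induction).  `2 G(u) = ∑ u_j (∂_j G)(u) = dp (Hs G u) u` (Euler).  `G(u + v)`: both sides times `2`, expand by bilinearity and
symmetry.  `G = 0` if `Hs G = 0`: `2 G(u) = 0` for all `u`, `MvPolynomial.funext`.  `dd u G` is a form of degree `1` with the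
value `dp (Hs G u) v` at `v`, so it is `lf (Hs G u)`. -/
def S_Hsf : Prop :=
  ∀ (N : ℕ), (∀ G G' : Sx N, Hs (G + G') = Hs G + Hs G') ∧
    (∀ (r : ℂ) (G : Sx N), Hs (r • G) = r • Hs G) ∧
    (∀ (G : Sx N) (u v : Vx N), dp (Hs G u) v = dp (Hs G v) u) ∧
    ∀ G : Sx N, G.IsHomogeneous 2 → (∀ u, grad G u = Hs G u) ∧
      (∀ u, 2 * eval u G = dp (Hs G u) u) ∧
      (∀ u v, eval (u + v) G = eval u G + eval v G + dp (Hs G u) v) ∧
      (∀ u, dd u G = lf (Hs G u)) ∧ (Hs G = 0 → G = 0)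

/-- (ClC) CLOSURE: a covector which is conormal at the general points of a subvariety is conormal at all points.

PROOF.  For `w ∈ TF I` let `Q_w = ∑ i, C (ξ i) * w i`.  Let `y ∈ zer P`, `y ≠ 0` (otherwise nothing to prove; fix it).  Some
coordinate `y_l ≠ 0`, so `X l ∉ P`.  For `z ∈ zer P` with `z_l ≠ 0` and `η(z) ≠ 0`: `(eval z (w i))_i ∈ TS I z` (`w ∈ TF I`, `z ∈ zer I`),
so `eval z Q_w = 0`.  So `X l * η * Q_w` vanishes on `zer P`, is in `P` (`S_Null`), and `Q_w ∈ P`.  For `τ ∈ TS I y`: `τ = w(y)` with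
`w ∈ TF I` (`S_TS`), `dp ξ τ = eval y Q_w = 0`.  The last claim of `S_TS`: `ξ = grad F y`, `F ∈ I`. -/
def S_ClC : Prop :=
  ∀ (N c : ℕ) (I : Ideal (Sx N)), I.IsPrime → IsHom I → Smooth I c →
    ∀ P : Ideal (Sx N), P.IsPrime → IsHom P → I ≤ P → ∀ η : Sx N, η ∉ P → ∀ ξ : Vx N,
    (∀ y ∈ zer P, y ≠ 0 → eval y η ≠ 0 → ∀ τ ∈ TS I y, dp ξ τ = 0) →
    ∀ y ∈ zer P, y ≠ 0 → ξ ∈ CN I y

/-- (TQ) A quadric in `I` which is singular at `x ∈ X` vanishes on the tangent space at `x`.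

PROOF.  `lf (Hs G x) = dd x G = 0` (`S_Hsf`), so `Hs G x = 0`, `G(x) = 0` and `G(x + v) = G(v)` for all `v`.  (1) `G ∈ (ptI x)^2`: `G` is the
image of itself under the substitution `X i ↦ X i - C (x i)` (both have the same values; `MvPolynomial.funext`), and a
quadratic form in the `X i - C (x i) ∈ ptI x` is in `(ptI x)^2`.  (2) `S_Ini` (`k = 2`): `(lin x τ G).coeff 2 = 0` for `τ ∈ TS I x`.
`lin x τ G` is the polynomial `G(x + t τ) = G(t τ) = t^2 G(τ)` (values at all `t`, `lin_eval`, `poly_ext` in `Bas.lean`), so its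
coefficient `2` is `G(τ)`.  (3) `G(τ + τ') = G(τ) + G(τ') + dp (Hs G τ) τ'` (`S_Hsf`) and `TS` is a subspace. -/
def S_TQ : Prop :=
  ∀ (N c : ℕ) (I : Ideal (Sx N)), I.IsPrime → IsHom I → Smooth I c → ∀ x ∈ zer I, x ≠ 0 →
    ∀ G ∈ I, G.IsHomogeneous 2 → dd x G = 0 → ∀ τ ∈ TS I x, eval τ G = 0 ∧
      ∀ τ' ∈ TS I x, dp (Hs G τ) τ' = 0

/-- (LQ) LINEAR ALGEBRA of a symmetric map `B` with an isotropic vector `q`.

PROOF.  `b(u, v) = dp (B u) v`.  `B q ≠ 0`: choose `q₁` with `b(q, q₁) = 1`; `q' = q₁ - (b(q₁, q₁) / 2) • q`: `b(q, q') = 1`,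
`b(q', q') = b(q₁, q₁) - b(q₁, q₁) b(q, q₁) + 0 = 0`.  `U = {u | b(u, q) = 0 ∧ b(u, q') = 0}`.  For every `y` the vector
`y' = y - b(y, q') • q - b(y, q) • q'` is in `U`.  So `range B = span (B q, B q') + B(U)`, and the sum is direct: if
`B u = α B q + β B q'`, `u ∈ U`, pairing with `q` and `q'` gives `0 = β`, `0 = α`.  So `B q, B q'` are independent and
`dim B(U) = r - 2`.  Choose `p i ∈ U`, `i : Fin (r - 2)`, such that the `B (p i)` are a basis of `B(U)`.  Let `y` satisfy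
`b(p i, y) = 0` for all `i`; then `b(u, y) = 0` for all `u ∈ U` (`B u` is a combination of the `B (p i)`), so `b(u, y') = 0` for
all `u ∈ U` (`b(u, q) = b(u, q') = 0`), and `b(q, y') = b(q', y') = 0`; so `b(v, y') = 0` for all `v`, `B y' = 0`. -/
def S_LQ : Prop :=
  ∀ (N r : ℕ) (B : Vx N →ₗ[ℂ] Vx N), (∀ u v, dp (B u) v = dp (B v) u) →
    Module.finrank ℂ (LinearMap.range B) = r → ∀ q : Vx N, B q ≠ 0 → dp (B q) q = 0 →
    2 ≤ r ∧ ∃ (p : Fin (r - 2) → Vx N) (q' : Vx N), (∀ i, dp (B (p i)) q = 0) ∧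
      dp (B q') q = 1 ∧
      ∀ y, (∀ i, dp (B (p i)) y = 0) → B y = dp (B q') y • B q + dp (B q) y • B q'

/-- (Rk6) RANKS OF QUADRICS.

PROOF.  Let `r = finrank (range (Hs G))`, `finrank (Kq G) = N + 1 - r` (rank-nullity), and suppose `r ≤ 5`.
(1) `Kq G ≠ ⊤` (`S_Hsf`: `Hs G ≠ 0`), so there is `a ≠ 0` with `dp a u = 0` for `u ∈ Kq G`; `lf a ∉ I` (`hnd`), so there is `q ∈ zer I` with
`dp a q ≠ 0` (`S_Null`): `Hs G q ≠ 0`, `q ≠ 0`.  `ξ = Hs G q`; `dp ξ q = 2 G(q) = 0`.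
(2) `S_LQ` for `B = Hs G`: `2 ≤ r`, `p`, `q'`.  `U.S_KrR` with `J = I`, `δ = N + 1 - c = c + 4` (`Q1.dimGe_smooth` in `Q1/Kr.lean`), `y = q`,
`g i = lf (Hs G (p i))` (`e = r - 2`; value `dp (Hs G (p i)) q = 0` at `q`): `P`, `DimGe P (c + 4 - (r - 2))`, and
`c + 1 ≤ c + 4 - (r - 2)`.
(3) `η = lf (Hs G q')`: `η(q) = 1`, so `η ∉ P` (`q ∈ zer P`).  For `y ∈ zer P`: `dp (Hs G (p i)) y = 0`, so by `S_LQ`
`Hs G y = η(y) • ξ + dp ξ y • Hs G q'`; pairing with `y`: `0 = 2 G(y) = η(y) dp ξ y + dp ξ y η(y) = 2 η(y) dp ξ y`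
(`dp (Hs G q') y = η(y)`).  So `η * lf ξ ∈ P` (`S_Null`), `lf ξ ∈ P`, and `Hs G y = η(y) • ξ` for all `y ∈ zer P`.
(4) For `y ∈ zer P`, `y ≠ 0`, `η(y) ≠ 0`, `τ ∈ TS I y`: `0 = dp (grad G y) τ = η(y) dp ξ τ`.  `S_ClC`: `ξ ∈ CN I y` for all `y ∈ zer P`, `y ≠ 0`.
`U.S_Zak`: `¬ DimGe P (c + 1)`; but `DimGe` is monotone in the number (restrict `Fin D → Fin (N+1)`; `DimGe P D → DimGe P D'`
for `D' ≤ D` is in the library: grep `dimGe_le` / `dimGe_down`).  Contradiction. -/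
def S_Rk6 : Prop :=
  ∀ (N c : ℕ) (I : Ideal (Sx N)), N = 2 * c + 3 → I.IsPrime → IsHom I →
    (∀ F ∈ I, F.IsHomogeneous 1 → F = 0) → Smooth I c → ∀ G ∈ I, G.IsHomogeneous 2 → G ≠ 0 →
    6 ≤ Module.finrank ℂ (LinearMap.range (Hs G)) ∧ Module.finrank ℂ (Kq G) + 6 ≤ N + 1

/-- (Kro) KRONECKER'S LEMMA.

PROOF.  Suppose `U ≠ ⊤`: there is a linear form `τ ≠ 0` on `T`, zero on `U`.
CLAIM: there are `D : ℂ[X]`, `D ≠ 0` and `Ψ : Fin 3 → ℂ[X]` with (∗) `∑_k Ψ_k * (C (l₁ t k) + X * C (l₂ t k)) = D * C (τ t)` for all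
`t : T`.  `l₁` is surjective: `t_j` with `l₁ t_j = e_j`; `M_(kj) = C (l₁ t_j k) + X * C (l₂ t_j k)`, `D = det M`, `D(0) = 1`;
`Ψ = (C (τ t_j))_j ᵥ* adjugate M`.  (∗) for `t` at a number `s` with `D(s) ≠ 0`: as `M(s)` is invertible there are `a_j` with
`(l₁ + s l₂) (t - ∑ a_j t_j) = 0`, so `τ (t) = ∑ a_j τ (t_j)` (the kernel of `l₁ + s l₂` is in `U`), and (∗) at `s` is linear
in `t` and true for the `t_j` (`adjugate M * M = det M • 1`) and for the elements of the kernel.  Infinitely many `s`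
(`D` has finitely many roots): (∗) holds.
Take `(D, Ψ)` with (∗), `D ≠ 0` and `D.natDegree` minimal (`Nat.find` or strong induction on `natDegree D`).  If `D(s₀) = 0`: at `s₀`:
`∑_k Ψ_k(s₀) (l₁ + s₀ l₂)(t)_k = 0` for all `t`, `l₁ + s₀ l₂` is surjective, so `Ψ_k(s₀) = 0` for all `k`: `X - C s₀` divides `D` and
all `Ψ_k`, and the quotients satisfy (∗): contradiction to minimality.  So `D` has no root, `D = C d`, `d ≠ 0`
(`IsAlgClosed`).  `Ψ ≠ 0` (`τ ≠ 0`).  Let `m` be the maximum of the `natDegree (Ψ_k)`, and `Ψ_(k, m)` the coefficients of `X^m`, not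
all `0` (if `m = 0` because `Ψ ≠ 0`).  The coefficient of `X^(m+1)` in (∗): `∑_k Ψ_(k, m) l₂ t k = 0` for all `t`.  `l₂` is surjective
(`a = 0`, `b = 1`): `Ψ_(k, m) = 0` for all `k`: contradiction. -/
def S_Kro : Prop :=
  ∀ (T : Type) [AddCommGroup T] [Module ℂ T] [FiniteDimensional ℂ T]
    (l₁ l₂ : T →ₗ[ℂ] (Fin 3 → ℂ)) (U : Submodule ℂ T),
    (∀ a b : ℂ, (a ≠ 0 ∨ b ≠ 0) → Function.Surjective (a • l₁ + b • l₂) ∧
      LinearMap.ker (a • l₁ + b • l₂) ≤ U) → U = ⊤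

/-- (NonC) The tangent spaces at general points are not contained in `A + ℂ y`.

PROOF.  We may enlarge `A`, so assume `finrank A = 2 c` (take `A' ≥ A` of dimension `2 c`, `2 c ≤ N + 1`; the conclusion for `A'`
implies that for `A`).  Suppose the claim is false: (0) for every `g ∉ I` there is `y ∈ zer I` with `g(y) ≠ 0`,
`TS I y ≤ A ⊔ span {y}`.
(1) CLAIM: `TS I y ≤ A ⊔ span {y}` for all `y ∈ zer I` with `y ∉ A`.  It is enough (double annihilator, `bd` in `LI/TS.lean`):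
`dp ξ τ = 0` for every `ξ` with `dp ξ a = 0` (`a ∈ A`), `dp ξ y = 0`, and every `τ ∈ TS I y`.  Suppose `dp ξ τ ≠ 0`.  `y ∉ A`: `α` with
`dp α a = 0` for `a ∈ A`, `dp α y = 1`.  `w ∈ TF I` with `w(y) = τ` (`S_TS`; `y ≠ 0` as `y ∉ A`).
`g = lf α * (∑ i, C (ξ i) * w i) - lf ξ * (∑ i, C (α i) * w i)`; `g(y) = dp ξ τ ≠ 0`, so `g ∉ I`.  By (0) there is `z ∈ zer I`, `g(z) ≠ 0`,
`TS I z ≤ A ⊔ span {z}`.  `ζ = (dp α z) • ξ - (dp ξ z) • α` annihilates `A` and `z`, so it annihilates `TS I z ∋ w(z)`, and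
`g(z) = dp ζ (w(z)) = 0`: contradiction.
(2) `A ≠ ⊤`: there is `p ∈ zer I`, `p ∉ A` (a linear form vanishing on `A` is not in `I`, `S_Null`).  `B = A ⊔ span {p}` has dimension
`2 c + 1`, its annihilator has dimension `3`: basis `ξ_0, ξ_1, ξ_2`.  `U.S_KrR` with `J = I`, `δ = N + 1 - c = c + 4`
(`Q1.dimGe_smooth`), `y = p`, `g i = lf (ξ_i)`: `P`, `DimGe P (c + 1)`; `zer P ⊆ B` (double annihilator).
(3) `α` as in (1) for `y = p`; `η = lf α ∉ P`.  For `y ∈ zer P` with `η(y) ≠ 0`: `y ∈ B`, `y ∉ A`, so `A ⊔ span {y} = B` and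
`TS I y ≤ B` by (1): `dp ξ_0 τ = 0` for `τ ∈ TS I y`.  `S_ClC`: `ξ_0 ∈ CN I y` for all `y ∈ zer P`, `y ≠ 0`; `ξ_0 ≠ 0`.  `U.S_Zak`:
contradiction. -/
def S_NonC : Prop :=
  ∀ (N c : ℕ) (I : Ideal (Sx N)), N = 2 * c + 3 → I.IsPrime → IsHom I →
    (∀ F ∈ I, F.IsHomogeneous 1 → F = 0) → Smooth I c → ∀ A : Submodule ℂ (Vx N),
    Module.finrank ℂ A ≤ 2 * c →
    ∃ g : Sx N, g ∉ I ∧ ∀ y ∈ zer I, eval y g ≠ 0 → ¬ TS I y ≤ A ⊔ Submodule.span ℂ {y}

/-- (Pts) GENERAL POINTS.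

PROOF.  As `LI.S_Zs` (`LI/Zs.lean`, lemmas `QA`, `fam`, `of_opt`; copy and simplify: there is no line `x, v` here).  `k = c - 2`.
Fix `z' ∈ zer I`, `z' ≠ 0` (exists: `hnd`; otherwise `X 0 ∈ I` by `S_Null`).  By induction on `j ≤ k` there are
`x_0, …, x_(j-1) ∈ zer I - 0` with (A) for all `i < j` the family `(x_l)_(l < j, l ≠ i)` is transversal at `x_i`; (B) the family
`(x_l)_(l < j)` is transversal at `z'`.  Step: `S_Opn` for `z'`: `g ∉ I` such that `(x_l)_(l<j)` is transversal at `z ∈ zer I` if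
`g(z) ≠ 0`; `S_Ext` at `x_i` for `(x_l)_(l ≠ i)` (`j - 1` members): `a_i`; `S_Ext` at `z'` for `(x_l)_(l < j)` (`j + 1 ≤ c`): `a'`.  Choose
`x_j ∈ zer I` where `g * ∏ lf (a_i) * lf a' * X l` (`X l ∉ I`) does not vanish (`S_Null`).  In the LAST step (`j + 1 = k = c - 2`)
multiply also with the `g` of `S_NonC` for `A = TS I (x_0) ⊔ span {x_l | l < c - 3}`: as `x_0 ∈ TS I (x_0)`,
`finrank A ≤ (c + 4) + (c - 4) = 2 c` (`S_TS`, `finrank_span_le_card`, `c ≥ 4`); then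
`¬ TS I (x_(c-3)) ≤ A ⊔ span {x_(c-3)} = TS I (x_0) ⊔ span (range x)`.
The first claim: in `∑ i, γ i • x i ∈ TS I (x j)` remove `γ j • x j ∈ TS I (x j)` (`S_TS`) and use (A). -/
def S_Pts : Prop :=
  ∀ (N c : ℕ) (I : Ideal (Sx N)), 4 ≤ c → N = 2 * c + 3 → I.IsPrime → IsHom I →
    (∀ F ∈ I, F.IsHomogeneous 1 → F = 0) → Smooth I c →
    ∃ x : Fin (c - 2) → Vx N, (∀ i, x i ∈ zer I ∧ x i ≠ 0) ∧
      (∀ j, ∀ γ : Fin (c - 2) → ℂ, ∑ i, γ i • x i ∈ TS I (x j) → ∀ i, i ≠ j → γ i = 0) ∧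
      ∃ i j, ¬ TS I (x i) ≤ TS I (x j) ⊔ Submodule.span ℂ (Set.range x)

/-- (Cnt) COUNTING QUADRICS.

PROOF.  Induction on `k` (`k ≤ c` is not needed: if `x` satisfies the hypothesis then so do the first `k` of `k + 1` points: put
`γ (last) = 0`).  `k = 0`: `I2x = I2`.  Step: `V_k = I2x I (x ∘ castSucc)`, `V_(k+1) = I2x I x ≤ V_k`, finite-dimensional
(`homogeneousSubmodule_fg`).  The linear map `V_k → Vx N`, `G ↦ Hs G x_k` (`x_k = x (last k)`), has the kernel `V_(k+1)`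
(`dd x_k G = lf (Hs G x_k)`, `S_Hsf`).  Its image is in `W = {φ ∈ CN I x_k | dp φ x_i = 0 for i < k}`: `Hs G x_k = grad G x_k ∈ CN`, and
`dp (Hs G x_k) x_i = dp (Hs G x_i) x_k = 0` (`dd x_i G = 0`).  `dim W + k = c` (so `dim W ≤ c - k`): the map
`CN I x_k → (Fin k → ℂ)`, `φ ↦ (dp φ x_i)_i` is surjective (`surj` in `LI/Opn.lean`: transversality), `finrank (CN) = c` (`S_Perp`).
Rank-nullity: `finrank V_k ≤ finrank V_(k+1) + (c - k)`. -/
def S_Cnt : Prop :=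
  ∀ (N c k : ℕ) (I : Ideal (Sx N)), I.IsPrime → IsHom I → Smooth I c → ∀ x : Fin k → Vx N,
    (∀ i, x i ∈ zer I ∧ x i ≠ 0) →
    (∀ j, ∀ γ : Fin k → ℂ, ∑ i, γ i • x i ∈ TS I (x j) → ∀ i, i ≠ j → γ i = 0) →
    Module.finrank ℂ (I2 I) ≤ Module.finrank ℂ (I2x I x) + ∑ j ∈ Finset.range k, (c - j)

/-- (C4) THE CASE `c ≥ 4` IS IMPOSSIBLE.

PROOF (`S_TS S_Hsf S_TQ S_Rk6 S_Kro S_Pts S_Cnt`).  (1) `S_Pts`: `x`.  `S_Cnt`: `∑_(j < c - 2) (c - j) = c + … + 3 = binom (c+1) 2 - 3`, so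
`2 ≤ finrank (I2x I x)`: there are linearly independent `G_1, G_2 ∈ I2x I x`.
(2) `E = span (range x)`, `T_j = TS I (x j) ⊔ E`.  `TS I (x j) ⊓ E = span {x j}` and the `x i` are independent (from the condition
on `γ`, `c - 2 ≥ 2`: a relation `∑ γ i • x i = 0 ∈ TS I (x j)` gives `γ i = 0` for `i ≠ j`, for two different `j`), so
`finrank T_j = (c + 4) + (c - 2) - 1 = 2 c + 1` (`≥` is enough; `Submodule.finrank_sup_add_finrank_inf_eq`).
`Ann (T_j) = (bd N).orthogonal T_j` has dimension `N + 1 - finrank T_j ≤ 3`.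
(3) Let `G ∈ I2x I x`, `G ≠ 0`.  `dp (Hs G t) t' = 0` for `t, t' ∈ T_j`: `S_TQ` for `t, t' ∈ TS I (x j)`, and `Hs G x_i = 0` (`S_Hsf`) with
symmetry.  So `Hs G` maps `T_j` into `Ann (T_j)`, and its kernel on `T_j` is `Kq G ⊓ T_j`: `finrank (Kq G ⊓ T_j) ≥ 2 c + 1 - 3 = 2 c - 2`;
`finrank (Kq G) ≤ N + 1 - 6 = 2 c - 2` (`S_Rk6`).  So `Kq G ≤ T_j`, equality everywhere: `finrank Ann (T_j) = 3` and
`Hs G : T_j → Ann (T_j)` is surjective.
(4) Fix `i`, `j`.  A linear isomorphism `κ : Ann (T_j) ≃ ℂ^3`; `l_a = κ ∘ Hs G_a` restricted to `T_j`, `a = 1, 2`.  For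
`(a, b) ≠ 0`: `G = a G_1 + b G_2 ∈ I2x I x` is not `0`, `Hs G = a Hs G_1 + b Hs G_2`, so `a l_1 + b l_2` is surjective with kernel
`Kq G ⊓ T_j ≤ T_i` by (3) for `i`.  `S_Kro` with `U = T_i` (comap to `T_j`): `T_j ≤ T_i`.  So `TS I (x i) ≤ T_i ≤ T_j` for all `i, j`
(exchange `i, j`): contradiction to `S_Pts`. -/
def S_C4 : Prop :=
  ∀ (N c : ℕ) (I : Ideal (Sx N)), 4 ≤ c → N = 2 * c + 3 → I.IsPrime → IsHom I →
    (∀ F ∈ I, F.IsHomogeneous 1 → F = 0) → Smooth I c →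
    Nat.choose (c + 1) 2 ≤ Module.finrank ℂ (I2 I) + 1 → False

end Pool.Agent.Lib.MP_776403_ag.SD.E2
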